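import Mathlib

open MeasureTheory ProbabilityTheory
open scoped ENNReal symmDiff

namespace P8ebff2

/-- Module APPROX -/
theorem exists_local_approx {V : Type*} {X : Type*} [MeasurableSpace X]
    (P : Measure (V → X)) [IsProbabilityMeasure P] {C : Type*} [Fintype C] [Nonempty C]
    [MeasurableSpace C] [MeasurableSingletonClass C] (f : (V → X) → C) (hf : Measurable f)
    (ε : ℝ) (hε : 0 < ε) :
    ∃ (S : Finset V) (g : (V → X) → C), Measurable g ∧ DependsOn g (S : Set V) ∧
      P.real {ω | g ω ≠ f ω} ≤ ε := by
  classical
  have hNpos : 0 < (Fintype.card C : ℝ) := by exact_mod_cast Fintype.card_pos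
  have hδ : 0 < ε / (Fintype.card C : ℝ) := div_pos hε hNpos
  have key : ∀ c : C, ∃ E : Set (V → X), E ∈ measurableCylinders (fun _ : V => X) ∧
      P (E ∆ (f ⁻¹' {c})) < ENNReal.ofReal (ε / (Fintype.card C : ℝ)) := by
    intro c
    exact exists_measure_symmDiff_lt_of_generateFrom_isSetRing isSetRing_measurableCylinders
      ⟨{Set.univ}, Set.countable_singleton _,
        by simpa using univ_mem_measurableCylinders (fun _ : V => X), by simp⟩
      generateFrom_measurableCylinders.symm (hf (measurableSet_singleton c))
      (ENNReal.ofReal_pos.2 hδ)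
  choose E hE hPE using key
  have hcyl : ∀ c, ∃ (s : Finset V) (S : Set (∀ _ : s, X)), MeasurableSet S ∧
      E c = cylinder s S := fun c => (mem_measurableCylinders _).1 (hE c)
  choose s S hS hES using hcyl
  have hEm : ∀ c, MeasurableSet (E c) := fun c => MeasurableSet.of_mem_measurableCylinders (hE c)
  let m : (V → X) → (C → Prop) := fun ω c => ω ∈ E c
  let sel : (C → Prop) → C := fun p => if h : ∃ c, p c then h.choose else Classical.arbitrary C
  have hsel : ∀ ω, (∃ c, ω ∈ E c) → ω ∈ E (sel (m ω)) := by
    intro ω h
    have h' : ∃ c, m ω c := h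
    have : sel (m ω) = h'.choose := by simp only [sel, dif_pos h']
    rw [this]
    exact h'.choose_spec
  refine ⟨Finset.univ.biUnion s, fun ω => sel (m ω), ?_, ?_, ?_⟩
  · have hm : Measurable m := by
      refine measurable_pi_iff.2 fun c => ?_
      exact measurableSet_setOfPred.1 (hEm c)
    exact (measurable_of_countable sel).comp hm
  · intro x y hxy
    have : m x = m y := by
      funext c
      show (x ∈ E c) = (y ∈ E c)
      rw [hES c, mem_cylinder, mem_cylinder]
      have : (s c).restrict x = (s c).restrict y := by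
        funext i
        exact hxy i.1 (by
          simp only [Finset.coe_biUnion, Finset.coe_univ, Set.mem_univ, Set.iUnion_true,
            Set.mem_iUnion, Finset.mem_coe]
          exact ⟨c, i.2⟩)
      rw [this]
    show sel (m x) = sel (m y)
    rw [this]
  · have hsub : {ω | sel (m ω) ≠ f ω} ⊆ ⋃ c, E c ∆ (f ⁻¹' {c}) := by
      intro ω hω
      by_contra hcon
      simp only [Set.mem_iUnion, not_exists, Set.mem_symmDiff, not_or, not_and, not_not,
        Set.mem_preimage, Set.mem_singleton_iff] at hcon
      have h1 : ω ∈ E (f ω) := (hcon (f ω)).2 rfl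
      have h2 := hsel ω ⟨_, h1⟩
      exact hω ((hcon _).1 h2).symm
    calc P.real {ω | sel (m ω) ≠ f ω} ≤ P.real (⋃ c, E c ∆ (f ⁻¹' {c})) :=
          measureReal_mono hsub
      _ ≤ ∑ c, P.real (E c ∆ (f ⁻¹' {c})) := measureReal_iUnion_fintype_le _
      _ ≤ ∑ _c : C, ε / (Fintype.card C : ℝ) := by
          refine Finset.sum_le_sum fun c _ => ?_
          have := (hPE c).le
          rw [Measure.real]
          exact ENNReal.toReal_le_of_le_ofReal hδ.le this
      _ = ε := by
          rw [Finset.sum_const, Finset.card_univ, nsmul_eq_mul]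
          field_simp

end P8ebff2
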