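import Mathlib

open MeasureTheory ProbabilityTheory
open scoped ENNReal
namespace P8ebff2

/-- Integral bound for one factor. -/
theorem counting_factor {Ω : Type*} [MeasurableSpace Ω] (P : Measure Ω) [IsProbabilityMeasure P]
    {B : Type*} [Finite B] [MeasurableSpace B] [MeasurableSingletonClass B] (y : Ω → B)
    (hy : Measurable y) (b : B) (η l : ℝ) (hl : 0 < l) (h : P.real {ω | y ω = b} ≤ 1 / 2 + η) :
    ∫ ω, (open Classical in if y ω = b then (1 : ℝ) else l) ∂P ≤ 1 / 2 + η + l := by
  classical
  have hms : MeasurableSet {ω | y ω = b} := hy (measurableSet_singleton b)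
  have h1 : ∀ ω, (if y ω = b then (1 : ℝ) else l) ≤ {ω | y ω = b}.indicator (fun _ => (1 : ℝ)) ω + l := by
    intro ω
    by_cases hb : y ω = b
    · simp [hb, Set.indicator]; exact hl.le
    · simp [hb, Set.indicator]
  have hi1 : Integrable ({ω | y ω = b}.indicator (fun _ => (1 : ℝ))) P :=
    (integrable_const 1).indicator hms
  have hi : Integrable (fun ω => {ω | y ω = b}.indicator (fun _ => (1 : ℝ)) ω + l) P :=
    hi1.add (integrable_const l)
  calc ∫ ω, (if y ω = b then (1 : ℝ) else l) ∂P
      ≤ ∫ ω, ({ω | y ω = b}.indicator (fun _ => (1 : ℝ)) ω + l) ∂P := by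
        apply integral_mono_of_nonneg _ hi (Filter.Eventually.of_forall h1)
        refine Filter.Eventually.of_forall fun ω => ?_
        dsimp only
        split_ifs
        · exact zero_le_one
        · exact hl.le
    _ = P.real {ω | y ω = b} + l := by
        rw [integral_add hi1 (integrable_const l), integral_indicator_const _ hms]
        simp
    _ ≤ _ := by linarith

/-- Module COUNTING -/
theorem counting {Ω : Type*} [MeasurableSpace Ω] (P : Measure Ω) [IsProbabilityMeasure P]
    {H : Type*} [Fintype H] {B C : Type*} [Finite B] [MeasurableSpace B]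
    [MeasurableSingletonClass B] [Fintype C] [MeasurableSpace C] [MeasurableSingletonClass C]
    (star : C) (y : H → Ω → B) (hy : ∀ h, Measurable (y h))
    (c : H → Ω → C) (hc : ∀ h, Measurable (c h))
    (Q : Finset H) (hind : iIndepFun (fun q : Q => y q) P)
    (ψ : H → (H → C) → B) (η η' δ x l : ℝ)
    (hη : ∀ h ∈ Q, ∀ b, P.real {ω | y h ω = b} ≤ 1 / 2 + η)
    (hη' : ∀ h ∈ Q, P.real {ω | y h ω ≠ ψ h (fun h' => c h' ω)} ≤ η')
    (hδ : ∀ h, P.real {ω | c h ω ≠ star} ≤ δ)
    (hx : 0 < x) (hx1 : x ≤ 1) (hl : 0 < l) (hl1 : l ≤ 1) (hη0 : 0 ≤ η) :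
    -(Real.log (1 / x) * (Fintype.card H * δ)) - Real.log (1 / l) * (Q.card * η')
      ≤ Fintype.card H * (Fintype.card C * x) + Q.card * Real.log (1 / 2 + η + l) := by
  classical
  -- measurability
  have hcm : Measurable (fun ω => fun h' => c h' ω) := measurable_pi_lambda _ hc
  have hset1 : ∀ h, MeasurableSet {ω | c h ω ≠ star} := fun h =>
    (hc h (measurableSet_singleton star)).compl
  have hψm : ∀ h, Measurable (ψ h) := fun h => measurable_of_finite _
  have hset2 : ∀ h, MeasurableSet {ω | y h ω ≠ ψ h (fun h' => c h' ω)} := fun h => by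
    have h1 : Measurable fun ω => ψ h (fun h' => c h' ω) := (hψm h).comp hcm
    have h2 : Measurable fun ω => (y h ω, ψ h (fun h' => c h' ω)) := (hy h).prodMk h1
    have h3 : MeasurableSet {p : B × B | p.1 ≠ p.2} := (Set.toFinite _).measurableSet
    exact h2 h3
  set α := Real.log (1 / x) with hα
  set β := Real.log (1 / l) with hβ
  have hα0 : 0 ≤ α := Real.log_nonneg (by rw [le_div_iff₀ hx]; linarith)
  have hβ0 : 0 ≤ β := Real.log_nonneg (by rw [le_div_iff₀ hl]; linarith)
  have hxα : Real.exp (-α) = x := by
    rw [hα, one_div, Real.log_inv, neg_neg, Real.exp_log hx]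
  have hlβ : Real.exp (-β) = l := by
    rw [hβ, one_div, Real.log_inv, neg_neg, Real.exp_log hl]
  let m : H → Ω → ℝ := fun h => {ω | c h ω ≠ star}.indicator (fun _ => (1 : ℝ))
  let dd : H → Ω → ℝ := fun h => {ω | y h ω ≠ ψ h (fun h' => c h' ω)}.indicator (fun _ => (1 : ℝ))
  have him : ∀ h, Integrable (m h) P := fun h => (integrable_const 1).indicator (hset1 h)
  have hid : ∀ h, Integrable (dd h) P := fun h => (integrable_const 1).indicator (hset2 h)
  let L : Ω → ℝ := fun ω => α * ∑ h, m h ω + β * ∑ h ∈ Q, dd h ω
  have hiL : Integrable L P :=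
    ((integrable_finsetSum _ fun h _ => him h).const_mul α).add
      ((integrable_finsetSum _ fun h _ => hid h).const_mul β)
  have hEL : ∫ ω, L ω ∂P ≤ α * (Fintype.card H * δ) + β * (Q.card * η') := by
    simp only [L]
    rw [integral_add ((integrable_finsetSum _ fun h _ => him h).const_mul α)
      ((integrable_finsetSum _ fun h _ => hid h).const_mul β), integral_const_mul,
      integral_const_mul, integral_finsetSum _ fun h _ => him h,
      integral_finsetSum _ fun h _ => hid h]
    gcongr
    · calc ∑ h, ∫ ω, m h ω ∂P ≤ ∑ _h : H, δ := by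
            apply Finset.sum_le_sum
            intro h _
            simp only [m]
            rw [integral_indicator_const _ (hset1 h)]
            simpa using hδ h
        _ = _ := by simp
    · calc ∑ h ∈ Q, ∫ ω, dd h ω ∂P ≤ ∑ _h ∈ Q, η' := by
            apply Finset.sum_le_sum
            intro h hh
            simp only [dd]
            rw [integral_indicator_const _ (hset2 h)]
            simpa using hη' h hh
        _ = _ := by simp
  -- the weight
  let W : Ω → ℝ := fun ω => Real.exp (-L ω)
  have hL0 : ∀ ω, 0 ≤ L ω := by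
    intro ω
    have h1 : 0 ≤ ∑ h, m h ω := Finset.sum_nonneg fun h _ => Set.indicator_nonneg (by simp) _
    have h2 : 0 ≤ ∑ h ∈ Q, dd h ω := Finset.sum_nonneg fun h _ => Set.indicator_nonneg (by simp) _
    simp only [L]
    positivity
  have hiW : Integrable W P := by
    have hmeas : AEStronglyMeasurable W P :=
      (Real.continuous_exp.comp_aestronglyMeasurable hiL.aestronglyMeasurable.neg)
    refine Integrable.of_bound hmeas 1 (Filter.Eventually.of_forall fun ω => ?_)
    rw [Real.norm_of_nonneg (Real.exp_pos _).le]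
    exact Real.exp_le_one_iff.mpr (by linarith [hL0 ω])
  set I := ∫ ω, L ω ∂P with hI
  have hlow : Real.exp (-I) ≤ ∫ ω, W ω ∂P := by
    have h1 : ∀ ω, Real.exp (-I) * (1 - L ω + I) ≤ W ω := by
      intro ω
      have h2 : I - L ω + 1 ≤ Real.exp (I - L ω) := Real.add_one_le_exp _
      have h3 : W ω = Real.exp (-I) * Real.exp (I - L ω) := by
        simp only [W]
        rw [← Real.exp_add]
        congr 1
        ring
      rw [h3]
      apply mul_le_mul_of_nonneg_left _ (Real.exp_pos _).le
      linarith
    have hi2 : Integrable (fun ω => Real.exp (-I) * (1 - L ω + I)) P :=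
      (((integrable_const (1 : ℝ)).sub hiL).add (integrable_const I)).const_mul _
    have h4 := integral_mono hi2 hiW h1
    refine le_trans (le_of_eq ?_) h4
    have e1 : ∫ ω, (1 - L ω + I) ∂P = 1 := by
      have h5 : Integrable (fun ω => 1 - L ω) P := (integrable_const (1 : ℝ)).sub hiL
      rw [integral_add h5 (integrable_const I), integral_sub (integrable_const (1 : ℝ)) hiL]
      simp [← hI]
    rw [integral_const_mul, e1, mul_one]
  -- upper bound
  let w : C → ℝ := fun a => if a = star then 1 else x
  have hw0 : ∀ a, 0 ≤ w a := fun a => by simp only [w]; split_ifs <;> linarith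
  let G : (H → C) → Ω → ℝ := fun c' ω => ∏ q : Q, (if y q ω = ψ q c' then (1 : ℝ) else l)
  have hG0 : ∀ c' ω, 0 ≤ G c' ω := fun c' ω => Finset.prod_nonneg fun q _ => by
    split_ifs
    · exact zero_le_one
    · exact hl.le
  have hWle : ∀ ω, W ω ≤ ∑ c' : H → C, (∏ h, w (c' h)) * G c' ω := by
    intro ω
    have h1 : W ω = (∏ h, w (c h ω)) * G (fun h' => c h' ω) ω := by
      simp only [W, L, G]
      rw [neg_add, Real.exp_add]
      congr 1
      · rw [← mul_neg, ← Finset.sum_neg_distrib, Finset.mul_sum, Real.exp_sum]
        apply Finset.prod_congr rfl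
        intro h _
        simp only [m, w, Set.indicator, Set.mem_ofPred_eq]
        by_cases hs : c h ω = star
        · simp [hs]
        · simp [hs, hxα]
      · rw [← mul_neg, ← Finset.sum_neg_distrib, Finset.mul_sum, Real.exp_sum,
          ← Finset.prod_coe_sort]
        apply Finset.prod_congr rfl
        intro h _
        simp only [dd, Set.indicator, Set.mem_ofPred_eq]
        by_cases hs : y h ω = ψ h (fun h' => c h' ω)
        · simp [hs]
        · simp [hs, hlβ]
    rw [h1]
    exact Finset.single_le_sum (f := fun c' : H → C => (∏ h, w (c' h)) * G c' ω)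
      (fun c' _ => mul_nonneg (Finset.prod_nonneg fun h _ => hw0 _) (hG0 _ _))
      (Finset.mem_univ (fun h' => c h' ω))
  have hgm : ∀ (c' : H → C) (q : Q), Measurable fun b : B => (if b = ψ q c' then (1 : ℝ) else l) :=
    fun c' q => measurable_of_finite _
  have hiG : ∀ c', Integrable (G c') P := by
    intro c'
    have hmeas : Measurable (G c') := Finset.measurable_fun_prod _ fun q _ =>
      (hgm c' q).comp (hy q)
    refine Integrable.of_bound hmeas.aestronglyMeasurable 1 (Filter.Eventually.of_forall fun ω => ?_)
    rw [Real.norm_of_nonneg (hG0 _ _)]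
    apply Finset.prod_le_one
    · intro q _
      split_ifs
      · exact zero_le_one
      · exact hl.le
    · intro q _
      split_ifs
      · exact le_rfl
      · exact hl1
  have hEG : ∀ c', ∫ ω, G c' ω ∂P ≤ (1 / 2 + η + l) ^ Q.card := by
    intro c'
    have h1 : iIndepFun (fun (q : Q) => (fun b : B => (if b = ψ q c' then (1 : ℝ) else l)) ∘ y q) P :=
      hind.comp _ (hgm c')
    have h2 := h1.integral_fun_prod_eq_prod_integral
      (fun q => ((hgm c' q).comp (hy q)).aestronglyMeasurable)
    have h3 : ∫ ω, G c' ω ∂P = ∏ q : Q, ∫ ω, (if y q ω = ψ q c' then (1 : ℝ) else l) ∂P := h2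
    rw [h3]
    calc ∏ q : Q, ∫ ω, (if y q ω = ψ q c' then (1 : ℝ) else l) ∂P
        ≤ ∏ _q : Q, (1 / 2 + η + l) := by
          apply Finset.prod_le_prod
          · intro q _
            apply integral_nonneg
            intro ω
            dsimp only
            split_ifs
            · exact zero_le_one
            · exact hl.le
          · intro q _
            have := counting_factor P (y q) (hy q) (ψ q c') η l hl (hη q q.2 _)
            convert this
      _ = _ := by simp
  have hsumw : ∑ c' : H → C, ∏ h, w (c' h) = (∑ a, w a) ^ Fintype.card H := by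
    have := (Finset.prod_univ_sum (fun _ : H => (Finset.univ : Finset C)) (fun _ a => w a)).symm
    simpa [Fintype.piFinset_univ] using this
  have hw1 : ∑ a, w a ≤ 1 + Fintype.card C * x := by
    calc ∑ a, w a ≤ ∑ a : C, ((if a = star then (1 : ℝ) else 0) + x) := by
          apply Finset.sum_le_sum
          intro a _
          simp only [w]
          split_ifs <;> linarith
      _ = _ := by
          rw [Finset.sum_add_distrib]
          simp
  have hbase0 : 0 ≤ ∑ a, w a := Finset.sum_nonneg fun a _ => hw0 a
  have hup : ∫ ω, W ω ∂P ≤ (1 + Fintype.card C * x) ^ Fintype.card H * (1 / 2 + η + l) ^ Q.card := by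
    calc ∫ ω, W ω ∂P ≤ ∫ ω, ∑ c' : H → C, (∏ h, w (c' h)) * G c' ω ∂P :=
          integral_mono hiW (integrable_finsetSum _ fun c' _ => (hiG c').const_mul _) hWle
      _ = ∑ c' : H → C, (∏ h, w (c' h)) * ∫ ω, G c' ω ∂P := by
          rw [integral_finsetSum _ fun c' _ => (hiG c').const_mul _]
          simp_rw [integral_const_mul]
      _ ≤ ∑ c' : H → C, (∏ h, w (c' h)) * (1 / 2 + η + l) ^ Q.card := by
          apply Finset.sum_le_sum
          intro c' _
          exact mul_le_mul_of_nonneg_left (hEG c') (Finset.prod_nonneg fun h _ => hw0 _)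
      _ = (∑ a, w a) ^ Fintype.card H * (1 / 2 + η + l) ^ Q.card := by
          rw [← Finset.sum_mul, hsumw]
      _ ≤ _ := by gcongr
  have hfin : Real.exp (-I) ≤
      (1 + Fintype.card C * x) ^ Fintype.card H * (1 / 2 + η + l) ^ Q.card := hlow.trans hup
  have hlog := Real.log_le_log (Real.exp_pos _) hfin
  have hCx : (0 : ℝ) < 1 + Fintype.card C * x := by positivity
  have hel : (0 : ℝ) < 1 / 2 + η + l := by linarith
  rw [Real.log_exp, Real.log_mul (by positivity) (by positivity), Real.log_pow, Real.log_pow] at hlog
  have h5 : Real.log (1 + Fintype.card C * x) ≤ Fintype.card C * x := by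
    have := Real.log_le_sub_one_of_pos hCx
    linarith
  have h6 : (Fintype.card H : ℝ) * Real.log (1 + Fintype.card C * x) ≤
      Fintype.card H * (Fintype.card C * x) := by gcongr
  linarith

end P8ebff2
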