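import Mathlib
/-! Definitions: invariant process laws, factors of i.i.d., and the squared `d̄₂` distance. -/
open MeasureTheory Filter Topology
open scoped unitInterval
namespace P8ebff2

variable {V : Type*}

/-- The law of an i.i.d. family of labels, uniform on `[0,1]`, indexed by `V`. -/
noncomputable def iidLaw (V : Type*) : Measure (V → I) :=
  Measure.infinitePi (fun _ : V => (volume : Measure I))

/-- `μ` is the law of an `Aut(G)`-invariant real process with finite second moments. -/
structure IsProcess (G : SimpleGraph V) (μ : Measure (V → ℝ)) : Prop where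
  /-- total mass one -/
  prob : IsProbabilityMeasure μ
  /-- invariance under every automorphism of `G` -/
  inv : ∀ φ : G ≃g G, μ.map (fun x v => x (φ v)) = μ
  /-- finite second moments -/
  memLp : ∀ v, MemLp (fun x : V → ℝ => x v) 2 μ

/-- `μ` is the law of a factor of i.i.d. process: the image of the i.i.d. law under a measurable
map commuting with every automorphism of `G` (at every configuration). -/
def IsFIID (G : SimpleGraph V) (μ : Measure (V → ℝ)) : Prop :=
  ∃ Φ : (V → I) → (V → ℝ), Measurable Φ ∧
    (∀ (φ : G ≃g G) (ω : V → I), Φ (fun v => ω (φ v)) = fun v => Φ ω (φ v)) ∧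
    μ = (iidLaw V).map Φ

/-- The same notion with almost sure equivariance, for each automorphism separately. -/
def IsFIIDae (G : SimpleGraph V) (μ : Measure (V → ℝ)) : Prop :=
  ∃ Φ : (V → I) → (V → ℝ), Measurable Φ ∧
    (∀ φ : G ≃g G, ∀ᵐ ω ∂(iidLaw V), Φ (fun v => ω (φ v)) = fun v => Φ ω (φ v)) ∧
    μ = (iidLaw V).map Φ

theorem IsFIID.ae {G : SimpleGraph V} {μ : Measure (V → ℝ)} (h : IsFIID G μ) : IsFIIDae G μ := by
  obtain ⟨Φ, h1, h2, h3⟩ := h
  exact ⟨Φ, h1, fun φ => ae_of_all _ (h2 φ), h3⟩

/-- `γ` is an `Aut(G)`-invariant coupling of the process laws `μ` and `μ'`. -/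
structure IsCoupling (G : SimpleGraph V) (μ μ' : Measure (V → ℝ))
    (γ : Measure ((V → ℝ) × (V → ℝ))) : Prop where
  /-- first marginal -/
  fst : γ.map Prod.fst = μ
  /-- second marginal -/
  snd : γ.map Prod.snd = μ'
  /-- joint invariance -/
  inv : ∀ φ : G ≃g G, γ.map (fun p => ((fun v => p.1 (φ v)), (fun v => p.2 (φ v)))) = γ

/-- The square of the `d̄₂` distance, computed at the vertex `o`: the infimum over invariant
couplings of the expected squared difference at `o`. -/
noncomputable def dbarSq (G : SimpleGraph V) (o : V) (μ μ' : Measure (V → ℝ)) : ENNReal :=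
  ⨅ (γ : Measure ((V → ℝ) × (V → ℝ))) (_ : IsCoupling G μ μ' γ),
    ∫⁻ p, ENNReal.ofReal ((p.1 o - p.2 o) ^ 2) ∂γ

end P8ebff2
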