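import Mathlib
/-! Geometry of trees through the graph distance. -/
namespace P8ebff2

variable {V : Type*} {G : SimpleGraph V}

theorem closer_unique (hG : G.IsTree) {u v a b : V} (ha : G.Adj v a) (hb : G.Adj v b)
    (hda : G.dist u a + 1 = G.dist u v) (hdb : G.dist u b + 1 = G.dist u v) : a = b := by
  obtain ⟨p, hp, hp'⟩ := hG.connected.exists_path_of_dist u v
  have key : ∀ a, G.Adj v a → G.dist u a + 1 = G.dist u v → a = p.penultimate := by
    intro a ha hda
    obtain ⟨q, hq, hq'⟩ := hG.connected.exists_path_of_dist u a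
    have hlen : (q.concat ha.symm).length = G.dist u v := by
      rw [SimpleGraph.Walk.length_concat, hq', hda]
    have hpath := (q.concat ha.symm).isPath_of_length_eq_dist hlen
    have heq : p = q.concat ha.symm :=
      (hG.existsUnique_path u v).unique hp hpath
    rw [heq, SimpleGraph.Walk.penultimate_concat]
  rw [key a ha hda, key b hb hdb]

theorem exists_closer (hG : G.IsTree) {u v : V} {n : ℕ} (h : G.dist u v = n + 1) :
    ∃ x, G.Adj v x ∧ G.dist u x = n := by
  obtain ⟨p, hp⟩ := hG.connected.exists_walk_length_eq_dist v u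
  rw [SimpleGraph.dist_comm, h] at hp
  cases p with
  | nil => simp at hp
  | @cons _ x _ hadj q =>
    refine ⟨x, hadj, ?_⟩
    simp only [SimpleGraph.Walk.length_cons, Nat.add_right_cancel_iff] at hp
    have h1 : G.dist x u ≤ n := hp ▸ SimpleGraph.dist_le q
    rw [SimpleGraph.dist_comm] at h1
    rcases hG.dist_eq_dist_add_one_of_adj u hadj with h2 | h2 <;> omega

/-- moving away -/
theorem dist_away (hG : G.IsTree) {u v x z : V} (hx : G.Adj v x) (hz : G.Adj v z) (hxz : x ≠ z)
    (h : G.dist u v = G.dist u x + 1) : G.dist u z = G.dist u v + 1 := by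
  rcases hG.dist_eq_dist_add_one_of_adj u hz with h2 | h2
  · exact absurd (closer_unique hG hx hz h.symm h2.symm) hxz
  · exact h2

/-- outward vertices from `v` seen from the parent side `z` -/
theorem rank_of_outward (hG : G.IsTree) (o : V) (n : ℕ) : ∀ {u v z : V}, G.Adj v z →
    G.dist o z + 1 = G.dist o v → G.dist u v = n → G.dist u z = n + 1 →
    G.dist o u = G.dist o v + n := by
  induction n with
  | zero =>
    intro u v z _ _ h _
    have : u = v := by
      by_contra hne
      have := hG.connected.pos_dist_of_ne hne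
      omega
    rw [this]; simp
  | succ n ih =>
    intro u v z hvz hz huv huz
    obtain ⟨x, hvx, hux⟩ := exists_closer hG huv
    have hxz : x ≠ z := by
      rintro rfl
      omega
    have hox : G.dist o x = G.dist o v + 1 := dist_away hG hvz hvx hxz.symm hz.symm
    have := ih hvx.symm (by omega) hux (by omega)
    omega

/-- vertices at distance `n` from `u` and lying `n` levels above are unique -/
theorem anc_unique (hG : G.IsTree) (o : V) (n : ℕ) : ∀ {u v w : V}, G.dist u v = n →
    G.dist u w = n → G.dist o u = G.dist o v + n → G.dist o u = G.dist o w + n → v = w := by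
  induction n with
  | zero =>
    intro u v w hv hw _ _
    have h1 : u = v := by
      by_contra hne
      have := hG.connected.pos_dist_of_ne hne
      omega
    have h2 : u = w := by
      by_contra hne
      have := hG.connected.pos_dist_of_ne hne
      omega
    exact h1 ▸ h2
  | succ n ih =>
    intro u v w hv hw hov how
    obtain ⟨x, hvx, hux⟩ := exists_closer hG hv
    obtain ⟨y, hwy, huy⟩ := exists_closer hG hw
    have t1 : G.dist o u ≤ G.dist o x + G.dist x u := hG.connected.dist_triangle
    have t2 : G.dist o u ≤ G.dist o y + G.dist y u := hG.connected.dist_triangle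
    rw [SimpleGraph.dist_comm (u := x)] at t1
    rw [SimpleGraph.dist_comm (u := y)] at t2
    have hox : G.dist o x = G.dist o v + 1 := by
      rcases hG.dist_eq_dist_add_one_of_adj o hvx with h2 | h2 <;> omega
    have hoy : G.dist o y = G.dist o w + 1 := by
      rcases hG.dist_eq_dist_add_one_of_adj o hwy with h2 | h2 <;> omega
    have hxy : x = y := ih hux huy (by omega) (by omega)
    subst hxy
    exact closer_unique (u := o) hG hvx.symm hwy.symm (by omega) (by omega)

/-- an outward vertex at distance `n` from a vertex `v` of maximal level sees no other vertex of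
level at most that of `v` at distance `n` -/
theorem private_ne (hG : G.IsTree) {o u v z w : V} {n : ℕ} (hvz : G.Adj v z)
    (hz : v = o ∨ G.dist o z + 1 = G.dist o v) (huv : G.dist u v = n) (huz : G.dist u z = n + 1)
    (hw : G.dist o w ≤ G.dist o v) (hne : w ≠ v) : G.dist u w ≠ n := by
  intro h
  have h1 : G.dist o u = G.dist o v + n := by
    rcases hz with rfl | hz
    · rw [SimpleGraph.dist_comm, huv]; simp
    · exact rank_of_outward hG o n hvz hz huv huz
  have t : G.dist o u ≤ G.dist o w + G.dist w u := hG.connected.dist_triangle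
  rw [SimpleGraph.dist_comm (u := w)] at t
  exact hne (anc_unique hG o n h huv (by omega) h1)

/-- for `v` there is a neighbour `z` on the side of the root -/
theorem exists_parent (hG : G.IsTree) (o v : V) (hnb : ∃ z, G.Adj v z) :
    ∃ z, G.Adj v z ∧ (v = o ∨ G.dist o z + 1 = G.dist o v) := by
  rcases Nat.eq_zero_or_pos (G.dist o v) with h | h
  · obtain ⟨z, hz⟩ := hnb
    refine ⟨z, hz, Or.inl ?_⟩
    by_contra hne
    have := hG.connected.pos_dist_of_ne (Ne.symm hne)
    omega
  · obtain ⟨n, hn⟩ := Nat.exists_eq_succ_of_ne_zero h.ne'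
    obtain ⟨z, hz, hz'⟩ := exists_closer hG hn
    exact ⟨z, hz, Or.inr (by omega)⟩

/-- the outward sphere -/
def Out (G : SimpleGraph V) (n : ℕ) (v z : V) : Set V := {u | G.dist u v = n ∧ G.dist u z = n + 1}

theorem out_succ (hG : G.IsTree) {n : ℕ} {v z x u : V} (hx : G.Adj v x) (hz : G.Adj v z)
    (hxz : x ≠ z) (hu : u ∈ Out G n x v) : u ∈ Out G (n + 1) v z := by
  refine ⟨hu.2, ?_⟩
  have := dist_away hG (u := u) hx hz hxz (by rw [hu.2, hu.1])
  rw [this, hu.2]

theorem out_disjoint (hG : G.IsTree) {n : ℕ} {v x y : V} (hx : G.Adj v x) (hy : G.Adj v y)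
    (hxy : x ≠ y) : Disjoint (Out G n x v) (Out G n y v) := by
  rw [Set.disjoint_left]
  intro u hu hu'
  exact hxy (closer_unique hG hx hy (by rw [hu.1, hu.2]) (by rw [hu'.1, hu'.2]))

/-- the outward spheres contain finite sets of size `2^n` when every vertex has two neighbours
besides any given one -/
theorem exists_big_out (hG : G.IsTree)
    (h3 : ∀ v z : V, ∃ x y : V, G.Adj v x ∧ G.Adj v y ∧ x ≠ y ∧ x ≠ z ∧ y ≠ z) (n : ℕ) :
    ∀ v z : V, G.Adj v z → ∃ D : Finset V, (∀ u ∈ D, u ∈ Out G n v z) ∧ 2 ^ n ≤ D.card := by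
  classical
  induction n with
  | zero =>
    intro v z hvz
    refine ⟨{v}, ?_, by simp⟩
    intro u hu
    rw [Finset.mem_singleton] at hu
    subst hu
    exact ⟨by simp, by simpa using SimpleGraph.dist_eq_one_iff_adj.2 hvz⟩
  | succ n ih =>
    intro v z hvz
    obtain ⟨x, y, hx, hy, hxy, hxz, hyz⟩ := h3 v z
    obtain ⟨D1, hD1, hc1⟩ := ih x v hx.symm
    obtain ⟨D2, hD2, hc2⟩ := ih y v hy.symm
    refine ⟨D1 ∪ D2, ?_, ?_⟩
    · intro u hu
      rcases Finset.mem_union.1 hu with h | h
      · exact out_succ hG hx hvz hxz (hD1 u h)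
      · exact out_succ hG hy hvz hyz (hD2 u h)
    · rw [Finset.card_union_of_disjoint]
      · rw [pow_succ]; omega
      · rw [Finset.disjoint_left]
        intro u h1 h2
        exact Set.disjoint_left.1 (out_disjoint hG hx hy hxy) (hD1 u h1) (hD2 u h2)

end P8ebff2
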