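import Mathlib
import Pool.Agent.Lib.P8ebff2.TreeGeo
/-! The local rule of one step of the inverse system: definitions. -/
open MeasureTheory ProbabilityTheory
open scoped ENNReal
namespace P8ebff2

section unif
variable (α : Type*) [Fintype α] [MeasurableSpace α]

/-- uniform probability measure on a finite type -/
noncomputable def unif : Measure α := (Fintype.card α : ℝ≥0∞)⁻¹ • Measure.count

variable {α}

theorem unif_singleton [MeasurableSingletonClass α] (a : α) :
    unif α {a} = (Fintype.card α : ℝ≥0∞)⁻¹ := by
  simp [unif]

theorem unif_apply [MeasurableSingletonClass α] (s : Finset α) :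
    unif α s = (s.card : ℝ≥0∞) * (Fintype.card α : ℝ≥0∞)⁻¹ := by
  simp [unif, Measure.count_apply_finset, mul_comm]

instance [Nonempty α] [MeasurableSingletonClass α] : IsProbabilityMeasure (unif α) := by
  constructor
  have := unif_apply (Finset.univ : Finset α)
  rw [Finset.coe_univ] at this
  rw [this, Finset.card_univ]
  exact ENNReal.mul_inv_cancel (by simp) (by simp)

theorem unif_map_equiv [MeasurableSingletonClass α] (t : α ≃ α) : (unif α).map t = unif α := by
  refine Measure.ext_of_singleton fun a => ?_
  rw [Measure.map_apply (measurable_of_finite _) (measurableSet_singleton a)]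
  have : t ⁻¹' {a} = {t.symm a} := by
    ext x; simp [Equiv.eq_symm_apply]
  rw [this, unif_singleton, unif_singleton]

end unif

variable {V : Type*} {α S A : Type*} [AddCommGroup A]

/-- `v` is good for `U`: in every direction pointing away from a neighbour `z` of `v`, there is a
seed at distance `ρ` from `v` -/
def good (G : SimpleGraph V) (e : α ≃ S × A × A) (s0 : S) (ρ : ℕ) (U : V → α) (v : V) : Prop :=
  ∀ z, G.Adj v z → ∃ u, (e (U u)).1 = s0 ∧ u ∈ Out G ρ v z

open Classical in
/-- the reduced information: the label if `v` is a seed; the fresh symbol if `v` is not good -/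
noncomputable def red (G : SimpleGraph V) (e : α ≃ S × A × A) (s0 : S) (ρ : ℕ) (U : V → α)
    (v : V) : Option A × Option A :=
  (if (e (U v)).1 = s0 then some (e (U v)).2.1 else none,
   if good G e s0 ρ U v then none else some (e (U v)).2.2)

/-- the value at `v` computed from the reduced information: the fresh symbol if there is one, and
otherwise the sum of the labels at distance `ρ` -/
noncomputable def recon (G : SimpleGraph V) (ρ : ℕ) (r : V → Option A × Option A) (v : V) : A :=
  match (r v).2 with
  | some f => f
  | none => ∑ᶠ u ∈ {u | G.dist u v = ρ}, ((r u).1).getD 0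

/-- the local rule -/
noncomputable def rule (G : SimpleGraph V) (e : α ≃ S × A × A) (s0 : S) (ρ : ℕ) (U : V → α) :
    V → A :=
  recon G ρ (red G e s0 ρ U)

end P8ebff2
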