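import Mathlib
import Pool.Agent.Lib.P8ebff2.TreeGeo
import Pool.Agent.Lib.P8ebff2.Rule
/-! The reduced information is rarely non-trivial. -/
open MeasureTheory ProbabilityTheory
open scoped ENNReal
namespace P8ebff2

theorem unif_real_seed {α S A : Type*} [Fintype α] [Fintype S] [Fintype A] [Nonempty α]
    [MeasurableSpace α] [MeasurableSingletonClass α] (e : α ≃ S × A × A) (s0 : S) :
    (unif α).real {a | (e a).1 = s0} = 1 / Fintype.card S := by
  classical
  have h1 : {a | (e a).1 = s0} = ((Finset.univ.filter (fun a : α => (e a).1 = s0) : Finset α) : Set α) := by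
    ext a; simp
  have h2 : (Finset.univ.filter (fun a : α => (e a).1 = s0)).card = Fintype.card (A × A) := by
    rw [← Finset.card_univ (α := A × A)]
    refine Finset.card_bij' (fun a _ => (e a).2) (fun b _ => e.symm (s0, b)) ?_ ?_ ?_ ?_
    · intro a _; exact Finset.mem_univ _
    · intro b _; simp
    · intro a ha
      rw [Finset.mem_filter] at ha
      rw [Equiv.symm_apply_eq]
      exact Prod.ext ha.2.symm rfl
    · intro b _; simp
  have h3 : Fintype.card α = Fintype.card S * Fintype.card (A × A) := by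
    rw [← Fintype.card_prod]; exact Fintype.card_congr e
  have hα : 0 < Fintype.card α := Fintype.card_pos
  have hAA : 0 < Fintype.card (A × A) := Nat.pos_of_ne_zero (fun h => by rw [h3, h] at hα; simp at hα)
  have hS : 0 < Fintype.card S := Nat.pos_of_ne_zero (fun h => by rw [h3, h] at hα; simp at hα)
  rw [Measure.real, h1, unif_apply, h2, ENNReal.toReal_mul, ENNReal.toReal_inv,
    ENNReal.toReal_natCast, ENNReal.toReal_natCast, h3, Nat.cast_mul]
  have a1 : (Fintype.card (A × A) : ℝ) ≠ 0 := by exact_mod_cast hAA.ne'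
  have a2 : (Fintype.card S : ℝ) ≠ 0 := by exact_mod_cast hS.ne'
  field_simp

/-- Module DENSITY -/
theorem red_density {V : Type*} [Countable V] {α S A : Type*} [AddCommGroup A] [Fintype α] [Fintype S]
    [Nonempty α] [Fintype A] [MeasurableSpace α] [MeasurableSingletonClass α] {G : SimpleGraph V}
    (hG : G.IsTree) (h3 : ∀ v z : V, ∃ x y : V, G.Adj v x ∧ G.Adj v y ∧ x ≠ y ∧ x ≠ z ∧ y ≠ z)
    (hfin : ∀ v, (G.neighborSet v).Finite) (e : α ≃ S × A × A) (s0 : S) (ρ : ℕ) (v : V) :
    (Measure.infinitePi (fun _ : V => unif α)).real {U | red G e s0 ρ U v ≠ (none, none)} ≤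
      1 / Fintype.card S +
        (G.neighborSet v).ncard * (1 - 1 / (Fintype.card S : ℝ)) ^ (2 ^ ρ) := by
  classical
  set P := Measure.infinitePi (fun _ : V => unif α) with hP
  have hex : ∀ z : V, ∃ D : Finset V, G.Adj v z → (∀ u ∈ D, u ∈ Out G ρ v z) ∧ 2 ^ ρ ≤ D.card := by
    intro z
    by_cases hz : G.Adj v z
    · obtain ⟨D, hD⟩ := exists_big_out hG h3 ρ v z hz
      exact ⟨D, fun _ => hD⟩
    · exact ⟨∅, fun h => absurd h hz⟩
  choose D hD using hex
  have hseed := unif_real_seed e s0
  set B : Set α := {a | (e a).1 = s0} with hB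
  have hBm : MeasurableSet B := B.toFinite.measurableSet
  have hcyl : ∀ (T : Finset V) (E : Set α), MeasurableSet E →
      P.real {U | ∀ u ∈ T, U u ∈ E} = (unif α).real E ^ T.card := by
    intro T E hE
    have h1 : {U : V → α | ∀ u ∈ T, U u ∈ E} = Set.pi (T : Set V) (fun _ => E) := by
      ext U; simp [Set.mem_pi]
    rw [Measure.real, h1, hP, Measure.infinitePi_pi (fun _ : V => unif α) (fun _ _ => hE),
      Finset.prod_const, ENNReal.toReal_pow]
    rfl
  have hsub : {U : V → α | red G e s0 ρ U v ≠ (none, none)} ⊆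
      {U | ∀ u ∈ ({v} : Finset V), U u ∈ B} ∪
        ⋃ z ∈ (hfin v).toFinset, {U | ∀ u ∈ D z, U u ∈ Bᶜ} := by
    intro U hU
    by_cases hs : (e (U v)).1 = s0
    · left
      intro u hu
      rw [Finset.mem_singleton] at hu
      rw [hu]; exact hs
    · right
      by_cases hg : good G e s0 ρ U v
      · exfalso
        apply hU
        unfold red
        rw [if_neg hs, if_pos hg]
      · unfold good at hg
        push Not at hg
        obtain ⟨z, hz, hz2⟩ := hg
        rw [Set.mem_iUnion₂]
        refine ⟨z, by rw [Set.Finite.mem_toFinset]; exact hz, ?_⟩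
        intro u hu hub
        exact hz2 u hub ((hD z hz).1 u hu)
  have hq0 : (0 : ℝ) ≤ 1 - 1 / (Fintype.card S : ℝ) := by
    rw [← hseed]
    have := measureReal_le_one (μ := unif α) (s := B)
    linarith
  have hq1 : 1 - 1 / (Fintype.card S : ℝ) ≤ 1 := by
    rw [← hseed]
    have := measureReal_nonneg (μ := unif α) (s := B)
    linarith
  have hBc : (unif α).real Bᶜ = 1 - 1 / (Fintype.card S : ℝ) := by
    rw [probReal_compl_eq_one_sub hBm, hseed]
  calc P.real {U | red G e s0 ρ U v ≠ (none, none)}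
      ≤ P.real ({U | ∀ u ∈ ({v} : Finset V), U u ∈ B} ∪
        ⋃ z ∈ (hfin v).toFinset, {U | ∀ u ∈ D z, U u ∈ Bᶜ}) := measureReal_mono hsub
    _ ≤ P.real {U | ∀ u ∈ ({v} : Finset V), U u ∈ B} +
        P.real (⋃ z ∈ (hfin v).toFinset, {U | ∀ u ∈ D z, U u ∈ Bᶜ}) := measureReal_union_le _ _
    _ ≤ 1 / Fintype.card S + ∑ z ∈ (hfin v).toFinset, (1 - 1 / (Fintype.card S : ℝ)) ^ (2 ^ ρ) := by
        apply add_le_add
        · rw [hcyl _ _ hBm, Finset.card_singleton, pow_one, hseed]
        · refine (measureReal_biUnion_finset_le _ _).trans ?_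
          apply Finset.sum_le_sum
          intro z hz
          rw [Set.Finite.mem_toFinset] at hz
          rw [hcyl _ _ hBm.compl, hBc]
          exact pow_le_pow_of_le_one hq0 hq1 (hD z hz).2
    _ = _ := by
        rw [Finset.sum_const, nsmul_eq_mul, Set.ncard_eq_toFinset_card _ (hfin v)]

end P8ebff2
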