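import Mathlib
/-! A continuous injective encoding of sequences of natural numbers by reals with a measurable
decoder. -/
open MeasureTheory Topology
namespace P8ebff2

/-- Module ENCODE -/
noncomputable def enc (x : ℕ → ℕ) : ℝ :=
  Cardinal.cantorFunction (1 / 3) (fun p => decide (x (Nat.unpair p).1 = (Nat.unpair p).2))

theorem enc_term_bound (x : ℕ → ℕ) (n : ℕ) :
    ‖Cardinal.cantorFunctionAux (1 / 3)
      (fun p => decide (x (Nat.unpair p).1 = (Nat.unpair p).2)) n‖ ≤ (1 / 3 : ℝ) ^ n := by
  unfold Cardinal.cantorFunctionAux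
  rcases Bool.eq_false_or_eq_true (decide (x (Nat.unpair n).1 = (Nat.unpair n).2)) with h | h
  · simp only [h, cond_true]
    rw [Real.norm_of_nonneg (by positivity)]
  · simp only [h, cond_false, norm_zero]
    positivity

theorem enc_continuous : Continuous enc := by
  unfold enc Cardinal.cantorFunction
  refine continuous_tsum (u := fun n => (1 / 3 : ℝ) ^ n) ?_
    (summable_geometric_of_lt_one (by norm_num) (by norm_num)) (fun n x => enc_term_bound x n)
  intro n
  have h1 : Continuous (fun x : ℕ → ℕ => x (Nat.unpair n).1) := continuous_apply _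
  have h2 : Continuous (fun m : ℕ => Cardinal.cantorFunctionAux (1 / 3 : ℝ)
    (fun _ => decide (m = (Nat.unpair n).2)) n) := continuous_of_discreteTopology
  exact h2.comp h1

theorem enc_injective : Function.Injective enc := by
  intro x y h
  have h1 := Cardinal.cantorFunction_injective (c := 1 / 3) (by norm_num) (by norm_num) h
  funext i
  have h2 := congrFun h1 (Nat.pair i (x i))
  simp only [Nat.unpair_pair] at h2
  have : decide (y i = x i) = true := by rw [← h2]; simp
  exact (of_decide_eq_true this).symm

theorem enc_mem (x : ℕ → ℕ) : enc x ∈ Set.Icc (0 : ℝ) (3 / 2) := by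
  unfold enc Cardinal.cantorFunction
  constructor
  · exact tsum_nonneg fun n => Cardinal.cantorFunctionAux_nonneg (by norm_num)
  · have hs : Summable (fun n : ℕ => (1 / 3 : ℝ) ^ n) :=
      summable_geometric_of_lt_one (by norm_num) (by norm_num)
    have h1 : ∑' n : ℕ, (1 / 3 : ℝ) ^ n = 3 / 2 := by
      rw [tsum_geometric_of_lt_one (by norm_num) (by norm_num)]; norm_num
    rw [← h1]
    refine Summable.tsum_le_tsum (fun n => ?_) ?_ hs
    · exact (le_abs_self _).trans (enc_term_bound x n)
    · exact Summable.of_norm_bounded hs (fun n => enc_term_bound x n)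

theorem exists_dec : ∃ dec : ℝ → ℕ → ℕ, Measurable dec ∧ ∀ x, dec (enc x) = x := by
  have he : MeasurableEmbedding enc := enc_continuous.measurableEmbedding enc_injective
  obtain ⟨dec, h1, h2⟩ := he.exists_measurable_extend measurable_id (fun _ => ⟨fun _ => 0⟩)
  exact ⟨dec, h1, fun x => congrFun h2 x⟩

end P8ebff2
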