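import Mathlib
import Pool.Agent.Lib.P8ebff2.TreeGeo
import Pool.Agent.Lib.P8ebff2.Rule
/-! Locality, equivariance, continuity and measurability of the local rule. -/
open MeasureTheory ProbabilityTheory
open scoped ENNReal
namespace P8ebff2

set_option linter.unusedSectionVars false

variable {V : Type*} {α S A : Type*} [AddCommGroup A]

theorem good_congr {G : SimpleGraph V} {e : α ≃ S × A × A} {s0 : S} {ρ : ℕ} {U U' : V → α} {v : V}
    (h : ∀ u, G.dist u v = ρ → (e (U u)).1 = (e (U' u)).1) :
    good G e s0 ρ U v ↔ good G e s0 ρ U' v := by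
  unfold good
  refine forall_congr' fun z => forall_congr' fun _ => exists_congr fun u => ?_
  constructor
  · rintro ⟨h1, h2⟩
    exact ⟨(h u h2.1) ▸ h1, h2⟩
  · rintro ⟨h1, h2⟩
    exact ⟨(h u h2.1).symm ▸ h1, h2⟩

theorem red_fst {G : SimpleGraph V} {e : α ≃ S × A × A} {s0 : S} {ρ : ℕ} {U : V → α} {v : V}
    (h : (e (U v)).1 = s0) : (red G e s0 ρ U v).1 = some (e (U v)).2.1 := by
  simp [red, h]

theorem red_fst' {G : SimpleGraph V} {e : α ≃ S × A × A} {s0 : S} {ρ : ℕ} {U : V → α} {v : V}
    (h : (e (U v)).1 ≠ s0) : (red G e s0 ρ U v).1 = none := by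
  simp [red, h]

theorem red_snd {G : SimpleGraph V} {e : α ≃ S × A × A} {s0 : S} {ρ : ℕ} {U : V → α} {v : V}
    (h : good G e s0 ρ U v) : (red G e s0 ρ U v).2 = none := by
  simp [red, h]

theorem red_snd' {G : SimpleGraph V} {e : α ≃ S × A × A} {s0 : S} {ρ : ℕ} {U : V → α} {v : V}
    (h : ¬ good G e s0 ρ U v) : (red G e s0 ρ U v).2 = some (e (U v)).2.2 := by
  simp [red, h]

theorem red_fst_congr {G : SimpleGraph V} {e : α ≃ S × A × A} {s0 : S} {ρ : ℕ} {U U' : V → α}
    {v : V} (h : U v = U' v) : (red G e s0 ρ U v).1 = (red G e s0 ρ U' v).1 := by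
  by_cases hs : (e (U v)).1 = s0
  · rw [red_fst hs, red_fst (h ▸ hs), h]
  · rw [red_fst' hs, red_fst' (h ▸ hs)]

theorem red_snd_congr {G : SimpleGraph V} {e : α ≃ S × A × A} {s0 : S} {ρ : ℕ} {U U' : V → α}
    {v : V} (h : ∀ u, G.dist u v = ρ → (e (U u)).1 = (e (U' u)).1)
    (hv : (e (U v)).2.2 = (e (U' v)).2.2) : (red G e s0 ρ U v).2 = (red G e s0 ρ U' v).2 := by
  by_cases hs : good G e s0 ρ U v
  · rw [red_snd hs, red_snd ((good_congr h).1 hs)]
  · rw [red_snd' hs, red_snd' (fun h' => hs ((good_congr h).2 h')), hv]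

theorem recon_congr {G : SimpleGraph V} {ρ : ℕ} {r r' : V → Option A × Option A} {v : V}
    (hv : (r v).2 = (r' v).2) (h : ∀ u, G.dist u v = ρ → (r u).1 = (r' u).1) :
    recon G ρ r v = recon G ρ r' v := by
  unfold recon
  rw [← hv]
  cases (r v).2 with
  | some f => rfl
  | none =>
    exact finsum_mem_congr rfl fun u hu => by rw [h u hu]

theorem recon_some {G : SimpleGraph V} {ρ : ℕ} {r : V → Option A × Option A} {v : V} {f : A}
    (h : (r v).2 = some f) : recon G ρ r v = f := by
  unfold recon; rw [h]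

theorem recon_none {G : SimpleGraph V} {ρ : ℕ} {r : V → Option A × Option A} {v : V}
    (h : (r v).2 = none) :
    recon G ρ r v = ∑ᶠ u ∈ {u | G.dist u v = ρ}, ((r u).1).getD 0 := by
  unfold recon; rw [h]

theorem sphere_finite {G : SimpleGraph V} (hG : G.IsTree) (hfin : ∀ v, (G.neighborSet v).Finite)
    (n : ℕ) (v : V) : {u | G.dist u v = n}.Finite := by
  induction n with
  | zero =>
    refine (Set.finite_singleton v).subset ?_
    intro u hu
    by_contra hne
    exact absurd hu (hG.connected.pos_dist_of_ne hne).ne'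
  | succ n ih =>
    refine (ih.biUnion fun x _ => hfin x).subset ?_
    intro u hu
    have hu' : G.dist v u = n + 1 := by rw [SimpleGraph.dist_comm]; exact hu
    obtain ⟨x, hux, hx⟩ := exists_closer hG hu'
    simp only [Set.mem_iUnion]
    exact ⟨x, by rw [Set.mem_ofPred_eq, SimpleGraph.dist_comm]; exact hx, hux.symm⟩

/-- the finite window of the rule -/
noncomputable def win {G : SimpleGraph V} (hG : G.IsTree) (hfin : ∀ v, (G.neighborSet v).Finite)
    (ρ : ℕ) (v : V) : Finset V :=
  open Classical in insert v (sphere_finite hG hfin ρ v).toFinset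

theorem mem_win {G : SimpleGraph V} {hG : G.IsTree} {hfin : ∀ v, (G.neighborSet v).Finite}
    {ρ : ℕ} {v u : V} : u ∈ win hG hfin ρ v ↔ u = v ∨ G.dist u v = ρ := by
  simp [win]

theorem recon_dependsOn {G : SimpleGraph V} (hG : G.IsTree)
    (hfin : ∀ v, (G.neighborSet v).Finite) (ρ : ℕ) (v : V) :
    DependsOn (fun r : V → Option A × Option A => recon G ρ r v) (win hG hfin ρ v : Set V) := by
  intro r r' h
  refine recon_congr ?_ ?_
  · rw [h v (by simp [mem_win])]
  · intro u hu
    rw [h u (by simp [mem_win, hu])]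

theorem rule_dependsOn {G : SimpleGraph V} (hG : G.IsTree)
    (hfin : ∀ v, (G.neighborSet v).Finite) (e : α ≃ S × A × A) (s0 : S) (ρ : ℕ) (v : V) :
    DependsOn (fun U : V → α => rule G e s0 ρ U v) (win hG hfin ρ v : Set V) := by
  intro U U' h
  refine recon_congr ?_ ?_
  · refine red_snd_congr (fun u hu => ?_) ?_
    · rw [h u (by simp [mem_win, hu])]
    · rw [h v (by simp [mem_win])]
  · intro u hu
    exact red_fst_congr (h u (by simp [mem_win, hu]))

theorem red_dependsOn {G : SimpleGraph V} (hG : G.IsTree)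
    (hfin : ∀ v, (G.neighborSet v).Finite) (e : α ≃ S × A × A) (s0 : S) (ρ : ℕ) (v : V) :
    DependsOn (fun U : V → α => red G e s0 ρ U v) (win hG hfin ρ v : Set V) := by
  intro U U' h
  refine Prod.ext ?_ ?_
  · exact red_fst_congr (h v (by simp [mem_win]))
  · refine red_snd_congr (fun u hu => ?_) ?_
    · rw [h u (by simp [mem_win, hu])]
    · rw [h v (by simp [mem_win])]

/-! ### Equivariance -/

theorem dist_iso {G : SimpleGraph V} (φ : G ≃g G) (u v : V) : G.dist (φ u) (φ v) = G.dist u v := by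
  have key : ∀ (φ : G ≃g G) (u v : V), G.edist (φ u) (φ v) ≤ G.edist u v := by
    intro φ u v
    rcases eq_or_ne (G.edist u v) ⊤ with h | h
    · rw [h]; exact le_top
    · obtain ⟨p, hp⟩ := SimpleGraph.exists_walk_of_edist_ne_top h
      rw [← hp]
      have := SimpleGraph.edist_le (p.map φ.toHom)
      simpa using this
  have h1 := key φ u v
  have h2 := key φ.symm (φ u) (φ v)
  simp only [RelIso.symm_apply_apply] at h2
  unfold SimpleGraph.dist
  rw [le_antisymm h1 h2]

theorem good_equiv {G : SimpleGraph V} (φ : G ≃g G) (e : α ≃ S × A × A) (s0 : S) (ρ : ℕ)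
    (U : V → α) (v : V) :
    good G e s0 ρ (fun x => U (φ x)) v ↔ good G e s0 ρ U (φ v) := by
  constructor
  · intro h z hz
    obtain ⟨u, hu, hu'⟩ := h (φ.symm z) (by
      have := φ.symm.map_adj_iff.2 hz
      simpa using this)
    refine ⟨φ u, hu, ?_, ?_⟩
    · rw [dist_iso]; exact hu'.1
    · have := hu'.2
      rw [← dist_iso φ] at this
      simpa using this
  · intro h z hz
    obtain ⟨u, hu, hu'⟩ := h (φ z) (φ.map_adj_iff.2 hz)
    refine ⟨φ.symm u, by simpa using hu, ?_, ?_⟩
    · rw [← dist_iso φ]; simpa using hu'.1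
    · rw [← dist_iso φ]; simpa using hu'.2

theorem red_equiv {G : SimpleGraph V} (φ : G ≃g G) (e : α ≃ S × A × A) (s0 : S) (ρ : ℕ)
    (U : V → α) (v : V) :
    red G e s0 ρ (fun x => U (φ x)) v = red G e s0 ρ U (φ v) := by
  refine Prod.ext ?_ ?_
  · by_cases hs : (e (U (φ v))).1 = s0
    · rw [red_fst hs, red_fst (U := fun x => U (φ x)) hs]
    · rw [red_fst' hs, red_fst' (U := fun x => U (φ x)) hs]
  · by_cases hs : good G e s0 ρ U (φ v)
    · rw [red_snd hs, red_snd ((good_equiv φ e s0 ρ U v).2 hs)]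
    · rw [red_snd' hs, red_snd' (fun h' => hs ((good_equiv φ e s0 ρ U v).1 h'))]

theorem recon_equiv {G : SimpleGraph V} (φ : G ≃g G) (ρ : ℕ)
    (r : V → Option A × Option A) (v : V) :
    recon G ρ (fun x => r (φ x)) v = recon G ρ r (φ v) := by
  rcases h : (r (φ v)).2 with _ | f
  · rw [recon_none h, recon_none (r := fun x => r (φ x)) h]
    refine finsum_mem_eq_of_bijOn φ ⟨?_, φ.injective.injOn, ?_⟩ (fun _ _ => rfl)
    · intro u hu
      simpa [dist_iso] using hu
    · intro u hu
      refine ⟨φ.symm u, ?_, by simp⟩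
      rw [Set.mem_ofPred_eq, ← dist_iso φ]
      simpa using hu
  · rw [recon_some h, recon_some (r := fun x => r (φ x)) h]

theorem rule_equiv {G : SimpleGraph V} (φ : G ≃g G) (e : α ≃ S × A × A) (s0 : S) (ρ : ℕ)
    (U : V → α) (v : V) :
    rule G e s0 ρ (fun x => U (φ x)) v = rule G e s0 ρ U (φ v) := by
  unfold rule
  rw [← recon_equiv]
  congr 1
  funext x
  exact red_equiv φ e s0 ρ U x

/-! ### Continuity and measurability of finite-window maps -/

theorem continuous_of_dependsOn {α B : Type*} [TopologicalSpace α] [DiscreteTopology α]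
    [TopologicalSpace B] {f : (V → α) → B} {K : Finset V} (h : DependsOn f (K : Set V)) :
    Continuous f := by
  refine IsLocallyConstant.continuous ?_
  rw [IsLocallyConstant.iff_exists_open]
  intro x
  refine ⟨Set.pi (K : Set V) (fun v => {x v}), isOpen_set_pi K.finite_toSet
    (fun v _ => isOpen_discrete _), fun v _ => rfl, fun y hy => h fun v hv => ?_⟩
  exact hy v hv

theorem measurable_of_dependsOn {α B : Type*} [Finite α] [MeasurableSpace α]
    [MeasurableSingletonClass α] [MeasurableSpace B] {f : (V → α) → B} {K : Finset V}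
    (h : DependsOn f (K : Set V)) : Measurable f := by
  classical
  rcases isEmpty_or_nonempty α with hα | ⟨⟨a0⟩⟩
  · rcases isEmpty_or_nonempty V with hV | ⟨⟨v⟩⟩
    · exact measurable_of_countable f
    · have : IsEmpty (V → α) := ⟨fun x => hα.elim (x v)⟩
      exact measurable_of_empty f
  · let g : (K → α) → B := fun x => f (fun v => if hv : v ∈ K then x ⟨v, hv⟩ else a0)
    have hg : Measurable g := measurable_of_countable g
    have hf : f = g ∘ K.restrict := by
      funext x
      refine h fun v hv => ?_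
      simp only [Finset.mem_coe] at hv
      simp [hv]
    rw [hf]
    exact hg.comp (Finset.measurable_restrict K)

end P8ebff2
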