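import Mathlib
import Pool.Agent.Lib.P8ebff2.TreeGeo
import Pool.Agent.Lib.P8ebff2.Rule
import Pool.Agent.Lib.P8ebff2.RuleBasic
/-! Exactness of the local rule: it maps the i.i.d. uniform law to the i.i.d. uniform law. -/
open MeasureTheory ProbabilityTheory
open scoped ENNReal
namespace P8ebff2

set_option linter.unusedSectionVars false

theorem measure_eq_of_partition {Ω ι : Type*} [Countable ι] [MeasurableSpace Ω] (P : Measure Ω)
    (C : ι → Set Ω) (hC : ∀ i, MeasurableSet (C i)) (hdisj : Pairwise (Function.onFun Disjoint C))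
    (hcov : ⋃ i, C i = Set.univ) (T : ι → Ω → Ω) (hT : ∀ i, MeasurePreserving (T i) P P)
    (E E' : Set Ω) (hE : MeasurableSet E) (hE' : MeasurableSet E')
    (hTC : ∀ i ω, T i ω ∈ C i ↔ ω ∈ C i) (hTE : ∀ i, ∀ ω ∈ C i, (T i ω ∈ E' ↔ ω ∈ E)) :
    P E = P E' := by
  have key : ∀ F : Set Ω, MeasurableSet F → P F = ∑' i, P (F ∩ C i) := by
    intro F hF
    rw [← measure_iUnion (fun i j hij => (hdisj hij).mono Set.inter_subset_right
      Set.inter_subset_right) (fun i => hF.inter (hC i)), ← Set.inter_iUnion, hcov,
      Set.inter_univ]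
  rw [key E hE, key E' hE']
  refine tsum_congr fun i => ?_
  rw [← (hT i).measure_preimage (hE'.inter (hC i)).nullMeasurableSet]
  congr 1
  ext ω
  simp only [Set.mem_inter_iff, Set.mem_preimage]
  constructor
  · rintro ⟨h1, h2⟩
    exact ⟨(hTE i ω h2).2 h1, (hTC i ω).2 h2⟩
  · rintro ⟨h1, h2⟩
    have h3 := (hTC i ω).1 h2
    exact ⟨(hTE i ω h3).1 h1, h3⟩

variable {V : Type*} {α S A : Type*} [AddCommGroup A]

/-- translation of the label by `b` -/
def tLab (e : α ≃ S × A × A) (b : A) : α ≃ α :=
  e.trans ((Equiv.prodCongr (Equiv.refl S)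
    (Equiv.prodCongr (Equiv.addRight b) (Equiv.refl A))).trans e.symm)

/-- translation of the fresh symbol by `b` -/
def tFr (e : α ≃ S × A × A) (b : A) : α ≃ α :=
  e.trans ((Equiv.prodCongr (Equiv.refl S)
    (Equiv.prodCongr (Equiv.refl A) (Equiv.addRight b))).trans e.symm)

theorem e_tLab (e : α ≃ S × A × A) (b : A) (a : α) :
    e (tLab e b a) = ((e a).1, (e a).2.1 + b, (e a).2.2) := by
  rcases h : e a with ⟨s, l, f⟩
  simp [tLab, h]

theorem e_tFr (e : α ≃ S × A × A) (b : A) (a : α) :
    e (tFr e b a) = ((e a).1, (e a).2.1, (e a).2.2 + b) := by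
  rcases h : e a with ⟨s, l, f⟩
  simp [tFr, h]

open Classical in
/-- apply `t` at the single vertex `u` -/
noncomputable def upd (t : α ≃ α) (u : V) (U : V → α) : V → α :=
  fun x => (if x = u then t else Equiv.refl α) (U x)

theorem upd_same (t : α ≃ α) (u : V) (U : V → α) : upd t u U u = t (U u) := by simp [upd]

theorem upd_ne (t : α ≃ α) {u x : V} (h : x ≠ u) (U : V → α) : upd t u U x = U x := by
  simp [upd, h]

theorem measurePreserving_upd [Fintype α] [Nonempty α] [MeasurableSpace α]
    [MeasurableSingletonClass α] (t : α ≃ α) (u : V) :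
    MeasurePreserving (upd t u) (Measure.infinitePi (fun _ : V => unif α))
      (Measure.infinitePi (fun _ : V => unif α)) := by
  classical
  refine ⟨?_, ?_⟩
  · refine measurable_pi_lambda _ fun x => ?_
    unfold upd
    exact (measurable_of_finite _).comp (measurable_pi_apply x)
  · have := Measure.infinitePi_map_pi (μ := fun _ : V => unif α) (Y := fun _ : V => α)
      (f := fun x => ((if x = u then t else Equiv.refl α : α ≃ α) : α → α))
      (fun x => measurable_of_finite _)
    unfold upd
    rw [this]
    congr 1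
    funext x
    exact unif_map_equiv _

theorem upd_lab_sel (e : α ≃ S × A × A) (b : A) (u x : V) (U : V → α) :
    (e (upd (tLab e b) u U x)).1 = (e (U x)).1 := by
  by_cases h : x = u
  · subst h; rw [upd_same, e_tLab]
  · rw [upd_ne _ h]

theorem upd_lab_fr (e : α ≃ S × A × A) (b : A) (u x : V) (U : V → α) :
    (e (upd (tLab e b) u U x)).2.2 = (e (U x)).2.2 := by
  by_cases h : x = u
  · subst h; rw [upd_same, e_tLab]
  · rw [upd_ne _ h]

theorem upd_fr_sel (e : α ≃ S × A × A) (b : A) (u x : V) (U : V → α) :
    (e (upd (tFr e b) u U x)).1 = (e (U x)).1 := by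
  by_cases h : x = u
  · subst h; rw [upd_same, e_tFr]
  · rw [upd_ne _ h]

theorem upd_fr_lab (e : α ≃ S × A × A) (b : A) (u x : V) (U : V → α) :
    (e (upd (tFr e b) u U x)).2.1 = (e (U x)).2.1 := by
  by_cases h : x = u
  · subst h; rw [upd_same, e_tFr]
  · rw [upd_ne _ h]

section rules
variable {G : SimpleGraph V} {e : α ≃ S × A × A} {s0 : S} {ρ : ℕ}

theorem red_fst_congr' {U U' : V → α} {v : V} (h1 : (e (U v)).1 = (e (U' v)).1)
    (h2 : (e (U v)).2.1 = (e (U' v)).2.1) : (red G e s0 ρ U v).1 = (red G e s0 ρ U' v).1 := by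
  by_cases hs : (e (U v)).1 = s0
  · rw [red_fst hs, red_fst (h1 ▸ hs), h2]
  · rw [red_fst' hs, red_fst' (h1 ▸ hs)]

theorem rule_upd_fr_ne (b : A) {v w : V} (h : w ≠ v) (U : V → α) :
    rule G e s0 ρ (upd (tFr e b) v U) w = rule G e s0 ρ U w := by
  refine recon_congr ?_ ?_
  · refine red_snd_congr (fun u _ => upd_fr_sel e b v u U) ?_
    rw [upd_ne _ h]
  · intro u _
    exact red_fst_congr' (upd_fr_sel e b v u U) (upd_fr_lab e b v u U)

theorem rule_upd_fr_bad (b : A) {v : V} (U : V → α) (hb : ¬ good G e s0 ρ U v) :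
    rule G e s0 ρ (upd (tFr e b) v U) v = rule G e s0 ρ U v + b := by
  have hb' : ¬ good G e s0 ρ (upd (tFr e b) v U) v := by
    rwa [good_congr (U' := U) (fun u _ => upd_fr_sel e b v u U)]
  unfold rule
  rw [recon_some (red_snd' hb), recon_some (red_snd' hb'), upd_same, e_tFr]

theorem rule_upd_lab_ne (b : A) {u w : V} (h : G.dist u w ≠ ρ) (U : V → α) :
    rule G e s0 ρ (upd (tLab e b) u U) w = rule G e s0 ρ U w := by
  refine recon_congr ?_ ?_
  · exact red_snd_congr (fun x _ => upd_lab_sel e b u x U) (upd_lab_fr e b u w U)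
  · intro x hx
    have hxu : x ≠ u := by rintro rfl; exact h hx
    exact red_fst_congr (upd_ne _ hxu U)

theorem rule_upd_lab_good {v : V} (hs : {u | G.dist u v = ρ}.Finite) (b : A) {u : V}
    (hu : G.dist u v = ρ) (U : V → α) (hg : good G e s0 ρ U v) (hsu : (e (U u)).1 = s0) :
    rule G e s0 ρ (upd (tLab e b) u U) v = rule G e s0 ρ U v + b := by
  classical
  have hg' : good G e s0 ρ (upd (tLab e b) u U) v := by
    rwa [good_congr (U' := U) (fun x _ => upd_lab_sel e b u x U)]
  unfold rule
  rw [recon_none (red_snd hg), recon_none (red_snd hg'), finsum_mem_eq_finite_toFinset_sum _ hs,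
    finsum_mem_eq_finite_toFinset_sum _ hs]
  have hmem : u ∈ hs.toFinset := by simpa using hu
  rw [← Finset.add_sum_erase _ _ hmem, ← Finset.add_sum_erase _ _ hmem]
  have h1 : (red G e s0 ρ (upd (tLab e b) u U) u).1.getD 0 =
      (red G e s0 ρ U u).1.getD 0 + b := by
    rw [red_fst hsu, red_fst (by rw [upd_lab_sel]; exact hsu), upd_same, e_tLab]
    simp
  have h2 : ∑ x ∈ hs.toFinset.erase u, (red G e s0 ρ (upd (tLab e b) u U) x).1.getD 0 =
      ∑ x ∈ hs.toFinset.erase u, (red G e s0 ρ U x).1.getD 0 := by
    refine Finset.sum_congr rfl fun x hx => ?_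
    rw [red_fst_congr (upd_ne _ (Finset.ne_of_mem_erase hx) U)]
  rw [h1, h2]
  abel

end rules

section exact

variable [Countable V] [Fintype α] [Nonempty α] [MeasurableSpace α] [MeasurableSingletonClass α]
  [Fintype A] [MeasurableSpace A] [MeasurableSingletonClass A]
  {G : SimpleGraph V} (hG : G.IsTree) (hnb : ∀ v, ∃ z, G.Adj v z)
  (hfin : ∀ v, (G.neighborSet v).Finite) (e : α ≃ S × A × A) (s0 : S) (ρ : ℕ)

include hG hfin in
theorem measurable_rule_apply (w : V) : Measurable (fun U : V → α => rule G e s0 ρ U w) :=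
  measurable_of_dependsOn (rule_dependsOn hG hfin e s0 ρ w)

theorem measurableSet_seed (u : V) : MeasurableSet {U : V → α | (e (U u)).1 = s0} := by
  have h : MeasurableSet {a : α | (e a).1 = s0} := (Set.toFinite _).measurableSet
  have h2 : Measurable fun U : V → α => U u := measurable_pi_apply u
  exact h2 h

theorem measurableSet_good (v : V) : MeasurableSet {U : V → α | good G e s0 ρ U v} := by
  have : {U : V → α | good G e s0 ρ U v} = ⋂ z, ⋂ (_ : G.Adj v z), ⋃ u, ⋃ (_ : u ∈ Out G ρ v z),
      {U : V → α | (e (U u)).1 = s0} := by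
    ext U
    simp only [good, Set.mem_ofPred_eq, Set.mem_iInter, Set.mem_iUnion]
    refine forall_congr' fun z => forall_congr' fun _ => exists_congr fun u => ?_
    tauto
  rw [this]
  exact MeasurableSet.iInter fun z => MeasurableSet.iInter fun _ =>
    MeasurableSet.iUnion fun u => MeasurableSet.iUnion fun _ => measurableSet_seed e s0 u

/-- the cells of the partition: `v` is not good, or `v` is good and `u` is the first seed of the
outward sphere away from `z` -/
def cell (G : SimpleGraph V) (e : α ≃ S × A × A) (s0 : S) (ρ : ℕ) (en : V → ℕ) (v z : V) :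
    Option V → Set (V → α)
  | none => {U | ¬ good G e s0 ρ U v}
  | some u => {U | good G e s0 ρ U v ∧ ((e (U u)).1 = s0 ∧ u ∈ Out G ρ v z) ∧
      ∀ u', en u' < en u → ¬ ((e (U u')).1 = s0 ∧ u' ∈ Out G ρ v z)}

/-- the corresponding maps -/
noncomputable def shiftMap (e : α ≃ S × A × A) (b : A) (v : V) : Option V → (V → α) → (V → α)
  | none => upd (tFr e b) v
  | some u => upd (tLab e b) u

theorem shiftMap_sel (b : A) (v : V) (p : Option V) (U : V → α) (x : V) :
    (e (shiftMap e b v p U x)).1 = (e (U x)).1 := by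
  cases p with
  | none => exact upd_fr_sel e b v x U
  | some u => exact upd_lab_sel e b u x U

theorem cell_measurable (en : V → ℕ) (v z : V) (p : Option V) :
    MeasurableSet (cell G e s0 ρ en v z p) := by
  cases p with
  | none => exact (measurableSet_good e s0 ρ v).compl
  | some u =>
    have : cell G e s0 ρ en v z (some u) = {U | good G e s0 ρ U v} ∩
        (({U : V → α | (e (U u)).1 = s0} ∩ {_U | u ∈ Out G ρ v z}) ∩
        ⋂ u', ⋂ (_ : en u' < en u), ({U : V → α | (e (U u')).1 = s0} ∩
          {_U | u' ∈ Out G ρ v z})ᶜ) := by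
      ext U
      simp [cell]
    rw [this]
    refine (measurableSet_good e s0 ρ v).inter (((measurableSet_seed e s0 u).inter
      (MeasurableSet.const _)).inter ?_)
    exact MeasurableSet.iInter fun u' => MeasurableSet.iInter fun _ =>
      ((measurableSet_seed e s0 u').inter (MeasurableSet.const _)).compl

theorem cell_disjoint {en : V → ℕ} (hen : Function.Injective en) (v z : V) :
    Pairwise (Function.onFun Disjoint (cell G e s0 ρ en v z)) := by
  intro p q hpq
  rw [Function.onFun, Set.disjoint_left]
  intro U hp hq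
  cases p with
  | none =>
    cases q with
    | none => exact hpq rfl
    | some u => exact hp hq.1
  | some u =>
    cases q with
    | none => exact hq hp.1
    | some u' =>
      rcases lt_trichotomy (en u) (en u') with h | h | h
      · exact hq.2.2 u h hp.2.1
      · exact hpq (by rw [hen h])
      · exact hp.2.2 u' h hq.2.1

theorem cell_cover (en : V → ℕ) {v z : V} (hz : G.Adj v z) :
    ⋃ p, cell G e s0 ρ en v z p = Set.univ := by
  rw [Set.eq_univ_iff_forall]
  intro U
  rw [Set.mem_iUnion]
  by_cases hg : good G e s0 ρ U v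
  · classical
    have hex : ∃ n, ∃ u, en u = n ∧ ((e (U u)).1 = s0 ∧ u ∈ Out G ρ v z) := by
      obtain ⟨u, hu⟩ := hg z hz
      exact ⟨en u, u, rfl, hu⟩
    obtain ⟨u, hu, hu'⟩ := Nat.find_spec hex
    refine ⟨some u, hg, hu', fun u' hlt h => ?_⟩
    rw [hu] at hlt
    exact Nat.find_min hex hlt ⟨u', rfl, h⟩
  · exact ⟨none, hg⟩

theorem cell_shift (en : V → ℕ) (b : A) (v z : V) (p : Option V) (U : V → α) :
    shiftMap e b v p U ∈ cell G e s0 ρ en v z p ↔ U ∈ cell G e s0 ρ en v z p := by
  have hg : good G e s0 ρ (shiftMap e b v p U) v ↔ good G e s0 ρ U v :=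
    good_congr (fun x _ => shiftMap_sel e b v p U x)
  have hs : ∀ x, (e (shiftMap e b v p U x)).1 = s0 ↔ (e (U x)).1 = s0 := fun x => by
    rw [shiftMap_sel]
  cases p with
  | none =>
    simp only [cell, Set.mem_ofPred_eq]
    rw [hg]
  | some u =>
    simp only [cell, Set.mem_ofPred_eq, hg, hs]

include hG hnb hfin in
/-- the value at a vertex of maximal level may be shifted freely -/
theorem shift_invariance (o : V) (W : Finset V) (a : V → A) {v : V} (hv : v ∉ W)
    (hmax : ∀ w ∈ W, G.dist o w ≤ G.dist o v) (b : A) :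
    (Measure.infinitePi (fun _ : V => unif α))
        {U | (∀ w ∈ W, rule G e s0 ρ U w = a w) ∧ rule G e s0 ρ U v = a v} =
      (Measure.infinitePi (fun _ : V => unif α))
        {U | (∀ w ∈ W, rule G e s0 ρ U w = a w) ∧
          rule G e s0 ρ U v = a v + b} := by
  classical
  obtain ⟨en, hen⟩ := exists_injective_nat V
  obtain ⟨z, hvz, hz⟩ := exists_parent hG o v (hnb v)
  have hm := measurable_rule_apply hG hfin e s0 ρ
  have hmeas : ∀ c : A, MeasurableSet
      {U : V → α | (∀ w ∈ W, rule G e s0 ρ U w = a w) ∧ rule G e s0 ρ U v = c} := by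
    intro c
    have : {U : V → α | (∀ w ∈ W, rule G e s0 ρ U w = a w) ∧
        rule G e s0 ρ U v = c} = (⋂ w ∈ W, {U | rule G e s0 ρ U w = a w}) ∩
        {U | rule G e s0 ρ U v = c} := by
      ext U; simp
    rw [this]
    refine MeasurableSet.inter (Finset.measurableSet_biInter _ fun w _ => ?_) ?_
    · exact hm w (measurableSet_singleton (a w))
    · exact hm v (measurableSet_singleton c)
  refine measure_eq_of_partition _ (cell G e s0 ρ en v z) (cell_measurable e s0 ρ en v z)
    (cell_disjoint e s0 ρ hen v z) (cell_cover e s0 ρ en hvz) (shiftMap e b v) ?_ _ _ (hmeas _)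
    (hmeas _) (fun p U => cell_shift e s0 ρ en b v z p U) ?_
  · intro p
    cases p with
    | none => exact measurePreserving_upd _ _
    | some u => exact measurePreserving_upd _ _
  · intro p U hU
    have hother : ∀ w ∈ W,
        rule G e s0 ρ (shiftMap e b v p U) w = rule G e s0 ρ U w := by
      intro w hw
      have hwv : w ≠ v := by rintro rfl; exact hv hw
      cases p with
      | none => exact rule_upd_fr_ne b hwv U
      | some u =>
        refine rule_upd_lab_ne b ?_ U
        exact private_ne hG hvz hz hU.2.1.2.1 hU.2.1.2.2 (hmax w hw) hwv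
    have hself : rule G e s0 ρ (shiftMap e b v p U) v = rule G e s0 ρ U v + b := by
      cases p with
      | none => exact rule_upd_fr_bad b U hU
      | some u =>
        exact rule_upd_lab_good (sphere_finite hG hfin ρ v) b hU.2.1.2.1 U hU.1 hU.2.1.1
    simp only [Set.mem_ofPred_eq, hself, add_left_inj]
    refine and_congr ?_ Iff.rfl
    exact forall₂_congr fun w hw => by rw [hother w hw]

include hG hnb hfin in
theorem rule_prob (o : V) (n : ℕ) : ∀ (W : Finset V), W.card = n → ∀ a : V → A,
    (Measure.infinitePi (fun _ : V => unif α)) {U | ∀ w ∈ W, rule G e s0 ρ U w = a w} =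
      ((Fintype.card A : ℝ≥0∞)⁻¹) ^ n := by
  classical
  have hm := measurable_rule_apply hG hfin e s0 ρ
  induction n with
  | zero =>
    intro W hW a
    rw [Finset.card_eq_zero] at hW
    subst hW
    simp
  | succ n ih =>
    intro W hW a
    have hne : W.Nonempty := Finset.card_pos.1 (by omega)
    obtain ⟨v, hv, hmax⟩ := Finset.exists_max_image W (fun w => G.dist o w) hne
    have hc' : (W.erase v).card = n := by rw [Finset.card_erase_of_mem hv, hW]; simp
    have hinv := fun b => shift_invariance hG hnb hfin e s0 ρ o (W.erase v) a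
      (Finset.notMem_erase v W) (fun w hw => hmax w (Finset.mem_of_mem_erase hw)) b
    set E : A → Set (V → α) := fun c =>
      {U | (∀ w ∈ W.erase v, rule G e s0 ρ U w = a w) ∧ rule G e s0 ρ U v = c} with hE
    have hEm : ∀ c, MeasurableSet (E c) := by
      intro c
      have : E c = (⋂ w ∈ W.erase v, {U | rule G e s0 ρ U w = a w}) ∩
          {U | rule G e s0 ρ U v = c} := by
        ext U; simp [hE]
      rw [this]
      refine MeasurableSet.inter (Finset.measurableSet_biInter _ fun w _ => ?_) ?_
      · exact hm w (measurableSet_singleton (a w))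
      · exact hm v (measurableSet_singleton c)
    have h1 : {U | ∀ w ∈ W, rule G e s0 ρ U w = a w} = E (a v) := by
      ext U
      simp only [hE, Set.mem_ofPred_eq]
      constructor
      · intro h
        exact ⟨fun w hw => h w (Finset.mem_of_mem_erase hw), h v hv⟩
      · rintro ⟨h, h'⟩ w hw
        by_cases hwv : w = v
        · rw [hwv]; exact h'
        · exact h w (Finset.mem_erase.2 ⟨hwv, hw⟩)
    have h2 : {U | ∀ w ∈ W.erase v, rule G e s0 ρ U w = a w} = ⋃ b : A, E (a v + b) := by
      ext U
      simp only [hE, Set.mem_ofPred_eq, Set.mem_iUnion]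
      constructor
      · intro h
        exact ⟨rule G e s0 ρ U v - a v, h, by abel⟩
      · rintro ⟨b, h, _⟩
        exact h
    have h3 : (Measure.infinitePi (fun _ : V => unif α)) (⋃ b : A, E (a v + b)) =
        ∑ b : A, (Measure.infinitePi (fun _ : V => unif α)) (E (a v + b)) := by
      rw [measure_iUnion _ (fun b => hEm _), tsum_fintype]
      intro b c hbc
      rw [Function.onFun, Set.disjoint_left]
      intro U hU hU'
      exact hbc (add_left_cancel (hU.2.symm.trans hU'.2))
    have h4 : ∀ b : A, (Measure.infinitePi (fun _ : V => unif α)) (E (a v + b)) =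
        (Measure.infinitePi (fun _ : V => unif α)) (E (a v)) := fun b => (hinv b).symm
    have h5 := ih (W.erase v) hc' a
    rw [h2, h3, Finset.sum_congr rfl (fun b _ => h4 b), Finset.sum_const, Finset.card_univ,
      nsmul_eq_mul] at h5
    rw [h1, pow_succ', ← h5, ← mul_assoc, ENNReal.inv_mul_cancel (by simp) (by simp), one_mul]

include hG hnb hfin in
/-- the local rule maps the i.i.d. uniform law to the i.i.d. uniform law -/
theorem rule_map (o : V) : (Measure.infinitePi (fun _ : V => unif α)).map (rule G e s0 ρ) =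
    Measure.infinitePi (fun _ : V => unif A) := by
  have hm : Measurable (rule G e s0 ρ : (V → α) → V → A) :=
    measurable_pi_lambda _ (measurable_rule_apply hG hfin e s0 ρ)
  refine Measure.eq_infinitePi _ fun s t ht => ?_
  have key : ((Measure.infinitePi (fun _ : V => unif α)).map (rule G e s0 ρ)).map s.restrict =
      Measure.pi (fun _ : s => unif A) := by
    refine Measure.ext_of_singleton fun x => ?_
    rw [Measure.map_apply (Finset.measurable_restrict s) (measurableSet_singleton x),
      Measure.map_apply hm ((Finset.measurable_restrict s) (measurableSet_singleton x)),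
      Measure.pi_singleton]
    classical
    have h1 : rule G e s0 ρ ⁻¹' (s.restrict ⁻¹' {x}) =
        {U | ∀ w ∈ s, rule G e s0 ρ U w = (fun v => if h : v ∈ s then x ⟨v, h⟩ else 0) w} := by
      ext U
      simp only [Set.mem_preimage, Set.mem_singleton_iff, Set.mem_ofPred_eq]
      constructor
      · intro h w hw
        rw [dif_pos hw, ← h]
        rfl
      · intro h
        funext w
        have := h w.1 w.2
        rw [dif_pos w.2] at this
        exact this
    rw [h1, rule_prob hG hnb hfin e s0 ρ o s.card s rfl]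
    simp [unif_singleton]
  have h2 : Set.pi (s : Set V) t = s.restrict ⁻¹' (Set.pi Set.univ (fun i : s => t i)) := by
    ext x
    simp [Set.mem_pi]
  have h3 : MeasurableSet (Set.pi Set.univ (fun i : s => t i)) :=
    MeasurableSet.univ_pi fun i => ht i
  rw [h2, ← Measure.map_apply (Finset.measurable_restrict s) h3, key, Measure.pi_pi]
  exact Finset.prod_coe_sort s (fun i => unif A (t i))

end exact

end P8ebff2
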