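import Mathlib
/-! The word model of the `d`-regular tree (Cayley graph of the free product of `d` copies of
`ℤ/2`): definitions and the basic algebra of the generators. -/
namespace P8ebff2

/-- words with no two equal consecutive letters: vertex set of the `d`-regular tree -/
structure Wd (d : ℕ) : Type where
  /-- the list of letters -/
  val : List (Fin d)
  /-- no two consecutive letters are equal -/
  chain : val.IsChain (· ≠ ·)
  deriving DecidableEq

theorem Wd.ext' {d : ℕ} {v w : Wd d} (h : v.1 = w.1) : v = w := by
  cases v; cases w; simp_all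

theorem Wd.val_injective (d : ℕ) : Function.Injective (Wd.val : Wd d → List (Fin d)) :=
  fun _ _ h => Wd.ext' h

instance (d : ℕ) : Countable (Wd d) := (Wd.val_injective d).countable

/-- the empty word -/
def Wd.root (d : ℕ) : Wd d := ⟨[], List.isChain_nil⟩

/-- left multiplication by the generator `i` of the free product of `d` copies of `ℤ/2` -/
def act {d : ℕ} (i : Fin d) (v : Wd d) : Wd d :=
  match v with
  | ⟨[], _⟩ => ⟨[i], List.isChain_singleton i⟩
  | ⟨j :: l, h⟩ =>
    if hij : i = j then ⟨l, h.tail⟩ else ⟨i :: j :: l, List.isChain_cons_cons.2 ⟨hij, h⟩⟩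

theorem act_val {d : ℕ} (i : Fin d) (v : Wd d) :
    (act i v).1 = if v.1.head? = some i then v.1.tail else i :: v.1 := by
  rcases v with ⟨_ | ⟨j, l⟩, h⟩
  · simp [act]
  · by_cases hij : i = j
    · simp [act, hij]
    · have hji : ¬ j = i := fun h => hij h.symm
      simp [act, hij, hji]

theorem act_act {d : ℕ} (i : Fin d) (v : Wd d) : act i (act i v) = v := by
  rcases v with ⟨_ | ⟨j, l⟩, h⟩
  · apply Wd.ext'
    simp [act]
  · by_cases hij : i = j
    · subst hij
      rcases l with _ | ⟨k, l⟩
      · apply Wd.ext'
        simp [act]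
      · have hik : i ≠ k := (List.isChain_cons_cons.1 h).1
        apply Wd.ext'
        simp [act, hik]
    · apply Wd.ext'
      simp [act, hij]

theorem act_ne {d : ℕ} (i : Fin d) (v : Wd d) : act i v ≠ v := by
  intro h
  have h1 := congrArg (fun w : Wd d => w.1.length) h
  simp only [act_val] at h1
  rcases v with ⟨_ | ⟨j, l⟩, h⟩
  · simp at h1
  · by_cases hij : j = i
    · simp [hij] at h1
    · simp [hij] at h1

theorem act_injective {d : ℕ} (v : Wd d) : Function.Injective (fun i : Fin d => act i v) := by
  intro i j hij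
  have h1 := congrArg (fun w : Wd d => w.1) hij
  simp only [act_val] at h1
  by_cases hi : v.1.head? = some i <;> by_cases hj : v.1.head? = some j
  · rw [hi] at hj; exact Option.some.inj hj
  · rw [if_pos hi, if_neg hj] at h1
    have := congrArg List.length h1
    simp at this
  · rw [if_neg hi, if_pos hj] at h1
    have := congrArg List.length h1
    simp at this
    omega
  · rw [if_neg hi, if_neg hj] at h1
    exact (List.cons.inj h1).1

/-- the `d`-regular tree -/
def Td (d : ℕ) : SimpleGraph (Wd d) where
  Adj v w := ∃ i, w = act i v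
  symm := ⟨by
    rintro v w ⟨i, rfl⟩
    exact ⟨i, (act_act i v).symm⟩⟩
  loopless := ⟨by
    rintro v ⟨i, hi⟩
    exact act_ne i v hi.symm⟩

theorem td_adj {d : ℕ} {v w : Wd d} : (Td d).Adj v w ↔ ∃ i, w = act i v := Iff.rfl

/-- evaluation of a word at a base point, for any family of self-maps indexed by the letters -/
def ev {d : ℕ} {X : Type*} (β : Fin d → X → X) (h : X) (x : Wd d) : X := x.1.foldr β h

@[simp] theorem ev_root {d : ℕ} {X : Type*} (β : Fin d → X → X) (h : X) :
    ev β h (Wd.root d) = h := rfl

theorem ev_act {d : ℕ} {X : Type*} {β : Fin d → X → X} (hβ : ∀ i h, β i (β i h) = h) (h : X)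
    (i : Fin d) (x : Wd d) : ev β h (act i x) = β i (ev β h x) := by
  unfold ev
  rw [act_val]
  rcases x with ⟨_ | ⟨j, l⟩, hl⟩
  · simp
  · by_cases hij : j = i
    · subst hij; simp [hβ]
    · simp [hij]

/-- right multiplication by `v`: the tree automorphism commuting with all `act i` and taking the
root to `v` -/
def tr {d : ℕ} (v x : Wd d) : Wd d := ev act v x

@[simp] theorem tr_root {d : ℕ} (v : Wd d) : tr v (Wd.root d) = v := rfl

theorem tr_act {d : ℕ} (v : Wd d) (i : Fin d) (x : Wd d) : tr v (act i x) = act i (tr v x) :=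
  ev_act act_act v i x

/-- induction along the words -/
theorem Wd.induct {d : ℕ} {p : Wd d → Prop} (h0 : p (Wd.root d))
    (h1 : ∀ i x, p x → p (act i x)) (x : Wd d) : p x := by
  rcases x with ⟨l, hl⟩
  induction l with
  | nil => exact h0
  | cons j l ih =>
    have hl' : List.IsChain (· ≠ ·) l := hl.tail
    have key : (⟨j :: l, hl⟩ : Wd d) = act j ⟨l, hl'⟩ := by
      apply Wd.ext'
      rw [act_val]
      rcases l with _ | ⟨k, l⟩
      · simp
      · have hjk : ¬ k = j := fun h => (List.isChain_cons_cons.1 hl).1 h.symm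
        simp [hjk]
    rw [key]
    exact h1 j _ (ih hl')

theorem ev_tr {d : ℕ} {X : Type*} {β : Fin d → X → X} (hβ : ∀ i h, β i (β i h) = h) (h : X)
    (v x : Wd d) : ev β h (tr v x) = ev β (ev β h v) x := by
  induction x using Wd.induct with
  | h0 => simp
  | h1 i x ih => rw [tr_act, ev_act hβ, ev_act hβ, ih]

theorem tr_tr {d : ℕ} (u v x : Wd d) : tr u (tr v x) = tr (tr u v) x := ev_tr act_act u v x

theorem root_tr {d : ℕ} (x : Wd d) : tr (Wd.root d) x = x := by
  induction x using Wd.induct with
  | h0 => simp
  | h1 i x ih => rw [tr_act, ih]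

end P8ebff2
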