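import Mathlib
import Pool.Agent.Lib.P8ebff2.Word
/-! Finite models of the `d`-regular tree: finite sets with `d` involutions in which the words of
a given finite set act by distinct maps. -/
namespace P8ebff2

/-- the ball of words of length at most `r` -/
abbrev Ball (d r : ℕ) : Type := {v : Wd d // v.1.length ≤ r}

instance (d r : ℕ) : Finite (Ball d r) := by
  have h := List.finite_length_le (Fin d) r
  have : Finite {l : List (Fin d) // l.length ≤ r} := h
  exact Finite.of_injective (fun v : Ball d r => (⟨v.1.1, v.2⟩ : {l : List (Fin d) // l.length ≤ r}))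
    (fun v w hvw => Subtype.ext (Wd.ext' (Subtype.mk.inj hvw)))

/-- the truncated action on the ball -/
def ballAct {d r : ℕ} (i : Fin d) (v : Ball d r) : Ball d r :=
  if h : (act i v.1).1.length ≤ r then ⟨act i v.1, h⟩ else v

theorem ballAct_invol {d r : ℕ} (i : Fin d) : Function.Involutive (ballAct (r := r) i) := by
  intro v
  by_cases h : (act i v.1).1.length ≤ r
  · have h1 : ballAct i v = ⟨act i v.1, h⟩ := dif_pos h
    rw [h1]
    have h2 : (act i (act i v.1)).1.length ≤ r := by rw [act_act]; exact v.2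
    unfold ballAct
    rw [dif_pos h2]
    exact Subtype.ext (act_act i v.1)
  · have h1 : ballAct i v = v := dif_neg h
    rw [h1, h1]

/-- the permutation of the ball -/
def ballPerm {d r : ℕ} (i : Fin d) : Equiv.Perm (Ball d r) := (ballAct_invol i).toPerm

theorem ballPerm_mul_self {d r : ℕ} (i : Fin d) :
    ballPerm (r := r) i * ballPerm i = 1 := by
  ext v
  simp [ballPerm, Function.Involutive.coe_toPerm, ballAct_invol i v]

/-- Module MODEL -/
theorem exists_finite_model (d : ℕ) (T : Finset (Wd d)) :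
    ∃ (H : Type) (_ : Fintype H) (_ : Nonempty H) (β : Fin d → H → H),
      (∀ i h, β i (β i h) = h) ∧ (∀ h : H, Set.InjOn (ev β h) (T : Set (Wd d))) ∧
      ∀ S : Finset (Wd d), S ⊆ T → S.Nonempty → ∃ Q : Finset H,
        (∀ h ∈ Q, ∀ h' ∈ Q, h ≠ h' → Disjoint (ev β h '' (S : Set (Wd d))) (ev β h' '' (S : Set (Wd d)))) ∧
        Fintype.card H ≤ Q.card * S.card ^ 2 := by
  classical
  set r : ℕ := T.sup (fun x => x.1.length) with hr
  let _ : Fintype (Equiv.Perm (Ball d r)) := Fintype.ofFinite _
  let β : Fin d → Equiv.Perm (Ball d r) → Equiv.Perm (Ball d r) := fun i h => ballPerm i * h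
  have hβ : ∀ i h, β i (β i h) = h := by
    intro i h
    show ballPerm i * (ballPerm i * h) = h
    rw [← mul_assoc, ballPerm_mul_self, one_mul]
  have hmul : ∀ (h : Equiv.Perm (Ball d r)) (x : Wd d), ev β h x = ev β 1 x * h := by
    intro h x
    induction x using Wd.induct with
    | h0 => simp
    | h1 i x ih =>
      rw [ev_act hβ, ev_act hβ, ih]
      show ballPerm i * (ev β 1 x * h) = ballPerm i * ev β 1 x * h
      rw [mul_assoc]
  let rt : Ball d r := ⟨Wd.root d, by simp [Wd.root]⟩
  have hroot : ∀ (l : List (Fin d)) (hl : l.IsChain (· ≠ ·)), l.length ≤ r →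
      (ev β 1 ⟨l, hl⟩ rt).1 = ⟨l, hl⟩ := by
    intro l
    induction l with
    | nil => intro hl _; rfl
    | cons j l ih =>
      intro hl hlen
      have hl' : List.IsChain (· ≠ ·) l := hl.tail
      have hlen' : l.length ≤ r := by
        rw [List.length_cons] at hlen; omega
      have ih' := ih hl' hlen'
      have key : act j ⟨l, hl'⟩ = (⟨j :: l, hl⟩ : Wd d) := by
        apply Wd.ext'
        rw [act_val]
        rcases l with _ | ⟨k, l⟩
        · simp
        · have hjk : ¬ k = j := fun h => (List.isChain_cons_cons.1 hl).1 h.symm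
          simp [hjk]
      have e1 : ev β 1 ⟨j :: l, hl⟩ = ballPerm j * ev β 1 ⟨l, hl'⟩ := by
        rw [← key, ev_act hβ]
      rw [e1]
      have e2 : (ballPerm j * ev β 1 ⟨l, hl'⟩ : Equiv.Perm (Ball d r)) rt =
          ballAct j ((ev β 1 ⟨l, hl'⟩ : Equiv.Perm (Ball d r)) rt) := rfl
      rw [e2]
      have e3 : ev β 1 ⟨l, hl'⟩ rt = ⟨⟨l, hl'⟩, hlen'⟩ := Subtype.ext ih'
      rw [e3]
      unfold ballAct
      have h4 : (act j (⟨⟨l, hl'⟩, hlen'⟩ : Ball d r).1).1.length ≤ r := by
        show (act j ⟨l, hl'⟩).1.length ≤ r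
        rw [key]; exact hlen
      rw [dif_pos h4]
      exact key
  have hTr : ∀ x ∈ T, x.1.length ≤ r := fun x hx => Finset.le_sup (f := fun x : Wd d => x.1.length) hx
  refine ⟨Equiv.Perm (Ball d r), inferInstance, ⟨1⟩, β, hβ, ?_, ?_⟩
  · intro h x hx y hy hxy
    rw [hmul h x, hmul h y] at hxy
    have h1 : ev β 1 x = ev β 1 y := mul_right_cancel hxy
    have hx' := hroot x.1 x.2 (hTr x hx)
    have hy' := hroot y.1 y.2 (hTr y hy)
    have ex : (⟨x.1, x.2⟩ : Wd d) = x := rfl
    have ey : (⟨y.1, y.2⟩ : Wd d) = y := rfl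
    rw [ex] at hx'
    rw [ey] at hy'
    rw [← hx', ← hy', h1]
  · intro S _ hS
    set Pr : Finset (Equiv.Perm (Ball d r)) → Prop := fun Q =>
      ∀ h ∈ Q, ∀ h' ∈ Q, h ≠ h' →
        Disjoint (ev β h '' (S : Set (Wd d))) (ev β h' '' (S : Set (Wd d))) with hPr
    obtain ⟨Q, hQ, hmax⟩ := Finset.exists_max_image
      ((Finset.univ : Finset (Finset (Equiv.Perm (Ball d r)))).filter Pr) Finset.card
      ⟨∅, by simp [hPr]⟩
    rw [Finset.mem_filter] at hQ
    refine ⟨Q, hQ.2, ?_⟩
    have hcov : (Finset.univ : Finset (Equiv.Perm (Ball d r))) ⊆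
        (Q ×ˢ (S ×ˢ S)).image (fun q => (ev β 1 q.2.1)⁻¹ * (ev β 1 q.2.2 * q.1)) := by
      intro h _
      have hex : ∃ q ∈ Q, ∃ s ∈ S, ∃ s' ∈ S, ev β h s = ev β q s' := by
        by_cases hhQ : h ∈ Q
        · obtain ⟨s, hs⟩ := hS
          exact ⟨h, hhQ, s, hs, s, hs, rfl⟩
        · by_contra hcon
          push Not at hcon
          have hins : Pr (insert h Q) := by
            intro a ha b hb hab
            rw [Finset.mem_insert] at ha hb
            rcases ha with rfl | ha <;> rcases hb with rfl | hb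
            · exact absurd rfl hab
            · rw [Set.disjoint_left]
              rintro _ ⟨s, hs, rfl⟩ ⟨s', hs', hss⟩
              exact hcon b hb s hs s' hs' hss.symm
            · rw [Set.disjoint_left]
              rintro _ ⟨s, hs, rfl⟩ ⟨s', hs', hss⟩
              exact hcon a ha s' hs' s hs hss
            · exact hQ.2 a ha b hb hab
          have := hmax (insert h Q) (Finset.mem_filter.2 ⟨Finset.mem_univ _, hins⟩)
          rw [Finset.card_insert_of_notMem hhQ] at this
          omega
      obtain ⟨q, hq, s, hs, s', hs', hss⟩ := hex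
      rw [Finset.mem_image]
      refine ⟨(q, s, s'), by simp [hq, hs, hs'], ?_⟩
      rw [hmul h s, hmul q s'] at hss
      show (ev β 1 s)⁻¹ * (ev β 1 s' * q) = h
      rw [← hss, inv_mul_cancel_left]
    calc Fintype.card (Equiv.Perm (Ball d r))
        = (Finset.univ : Finset (Equiv.Perm (Ball d r))).card := rfl
      _ ≤ _ := Finset.card_le_card hcov
      _ ≤ _ := Finset.card_image_le
      _ = Q.card * S.card ^ 2 := by rw [Finset.card_product, Finset.card_product, pow_two]

end P8ebff2
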