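import Mathlib

/-!
Product measures: sets and functions depending on finitely many coordinates.
-/

open MeasureTheory ProbabilityTheory
open scoped ENNReal

namespace P8ebff2

/-- Extension of a partial function by a default value. -/
noncomputable def extS {V X : Type*} (S : Finset V) (x0 : X) (x : S → X) : V → X :=
  open Classical in fun v => if h : v ∈ S then x ⟨v, h⟩ else x0

lemma extS_of_mem {V X : Type*} {S : Finset V} {x0 : X} {x : S → X} {v : V} (h : v ∈ S) :
    extS S x0 x v = x ⟨v, h⟩ := by
  unfold extS; rw [dif_pos h]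

lemma measurable_extS {V X : Type*} [MeasurableSpace X] (S : Finset V) (x0 : X) :
    Measurable (extS (V := V) S x0) := by
  rw [measurable_pi_iff]
  intro v
  by_cases h : v ∈ S
  · have : (fun x : S → X => extS S x0 x v) = fun x => x ⟨v, h⟩ := by
      funext x; exact extS_of_mem h
    rw [this]; exact measurable_pi_apply _
  · have : (fun x : S → X => extS S x0 x v) = fun _ => x0 := by
      funext x; unfold extS; rw [dif_neg h]
    rw [this]; exact measurable_const

/-- Module TRANSFER (a) -/
theorem transfer {V H X : Type*} [MeasurableSpace X] (ν : Measure X) [IsProbabilityMeasure ν]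
    (ι : V → H) (S : Finset V) (hι : Set.InjOn ι (S : Set V)) (E : Set (V → X))
    (hE : MeasurableSet E) (hdep : DependsOn (fun ω : V → X => ω ∈ E) (S : Set V)) :
    (Measure.infinitePi (fun _ : H => ν)) {ω | (fun v => ω (ι v)) ∈ E} =
      (Measure.infinitePi (fun _ : V => ν)) E := by
  obtain ⟨x0⟩ : Nonempty X := nonempty_of_isProbabilityMeasure ν
  set E' : Set (S → X) := extS S x0 ⁻¹' E with hE'
  have hE'm : MeasurableSet E' := measurable_extS S x0 hE
  have h1 : {ω : H → X | (fun v => ω (ι v)) ∈ E} =
      (fun (ω : H → X) (i : S) => ω (ι i)) ⁻¹' E' := by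
    ext ω
    simp only [Set.mem_ofPred_eq, Set.mem_preimage, hE']
    rw [← eq_iff_iff]
    apply hdep
    intro v hv
    rw [extS_of_mem (by simpa using hv)]
  have h2 : E = (fun (ω : V → X) (i : S) => ω (i : V)) ⁻¹' E' := by
    ext ω
    simp only [Set.mem_preimage, hE']
    rw [← eq_iff_iff]
    apply hdep
    intro v hv
    rw [extS_of_mem (by simpa using hv)]
  have hinj : Function.Injective (fun i : S => ι i) := by
    intro i j hij
    exact Subtype.ext (hι (by simp) (by simp) hij)
  have h3 := Measure.map_infinitePi_infinitePi_of_inj (P := fun _ : H => ν) hinj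
  have h4 := Measure.map_infinitePi_infinitePi_of_inj (P := fun _ : V => ν)
    (f := fun i : S => (i : V)) Subtype.val_injective
  rw [h1, h2, ← Measure.map_apply (by fun_prop) hE'm, h3, ← Measure.map_apply (by fun_prop) hE'm,
    h4]

/-- Module TRANSFER (b) -/
theorem indep_local {V H X B : Type*} [MeasurableSpace X] (ν : Measure X)
    [IsProbabilityMeasure ν] [MeasurableSpace B] (f : (V → X) → B) (hf : Measurable f)
    (S : Finset V) (hdep : DependsOn f (S : Set V)) (Q : Finset H) (ι : H → V → H)
    (hdisj : ∀ h ∈ Q, ∀ h' ∈ Q, h ≠ h' → Disjoint (ι h '' (S : Set V)) (ι h' '' (S : Set V))) :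
    iIndepFun (fun q : Q => fun ω : H → X => f (fun v => ω (ι q v)))
      (Measure.infinitePi (fun _ : H => ν)) := by
  obtain ⟨x0⟩ : Nonempty X := nonempty_of_isProbabilityMeasure ν
  -- the blocks
  let Bl : Q → Type _ := fun q => {h : H // h ∈ ι q '' (S : Set V)}
  have hinj : Function.Injective (fun p : (q : Q) × Bl q => (p.2 : H)) := by
    rintro ⟨q, h, hh⟩ ⟨q', h', hh'⟩ (heq : h = h')
    subst heq
    have hq : q = q' := by
      by_contra hne
      exact Set.disjoint_left.1 (hdisj q q.2 q' q'.2 (fun h => hne (Subtype.ext h))) hh hh'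
    subst hq
    rfl
  have h1 := Measure.map_infinitePi_infinitePi_of_inj (P := fun _ : H => ν) hinj
  have hind : iIndepFun (fun (q : Q) (ω : H → X) (b : Bl q) => ω b)
      (Measure.infinitePi (fun _ : H => ν)) := by
    rw [iIndepFun_iff_map_fun_eq_infinitePi_map (by fun_prop)]
    have h2 : (fun (ω : H → X) (q : Q) (b : Bl q) => ω b) =
        (MeasurableEquiv.piCurry (fun (q : Q) (_ : Bl q) => X)) ∘
          fun (ω : H → X) (p : (q : Q) × Bl q) => ω p.2 := by
      ext ω q b
      simp [Sigma.curry]
    rw [h2, ← Measure.map_map (by fun_prop) (by fun_prop), h1,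
      Measure.infinitePi_map_piCurry (fun (q : Q) (_ : Bl q) => ν)]
    congr 1
    funext q
    exact (Measure.map_infinitePi_infinitePi_of_inj (P := fun _ : H => ν)
      (f := fun b : Bl q => (b : H)) Subtype.val_injective).symm
  let g : ∀ q : Q, (Bl q → X) → B := fun q z =>
    f (extS S x0 (fun v : S => z ⟨ι q v, ⟨v, v.2, rfl⟩⟩))
  have hg : ∀ q, Measurable (g q) := by
    intro q
    apply hf.comp ((measurable_extS S x0).comp _)
    rw [measurable_pi_iff]
    intro v
    exact measurable_pi_apply _
  have h3 := hind.comp g hg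
  convert h3 using 2 with q
  funext ω
  simp only [Function.comp_apply, g]
  apply hdep
  intro v hv
  rw [extS_of_mem (by simpa using hv)]

end P8ebff2
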