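import Mathlib
import Pool.Agent.Lib.P8ebff2.Word
import Pool.Agent.Lib.P8ebff2.TreeGeo
import Pool.Agent.Lib.P8ebff2.Counting
import Pool.Agent.Lib.P8ebff2.Approx
import Pool.Agent.Lib.P8ebff2.Transfer
import Pool.Agent.Lib.P8ebff2.Model
open MeasureTheory ProbabilityTheory unitInterval
open scoped ENNReal
namespace P8ebff2

theorem nc_tr_injective {d : ℕ} (v : Wd d) : Function.Injective (tr v) := by
  have hgen : ∀ i : Fin d, Function.Injective (tr (act i (Wd.root d))) := by
    intro i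
    apply Function.LeftInverse.injective (g := tr (act i (Wd.root d)))
    intro x
    rw [tr_tr, tr_act, tr_root, act_act, root_tr]
  induction v using Wd.induct with
  | h0 =>
    intro x y h
    simpa [root_tr] using h
  | h1 i v ih =>
    have h2 : ∀ x, tr (act i v) x = tr v (tr (act i (Wd.root d)) x) := by
      intro x
      rw [tr_tr, tr_act, tr_root]
    intro x y h
    rw [h2, h2] at h
    exact hgen i (ih h)

/-- invariance of the product measure under the translations -/
theorem nc_real_tr {d : ℕ} {X : Type*} [MeasurableSpace X] (ν : Measure X) [IsProbabilityMeasure ν]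
    (v : Wd d) (E : Set (Wd d → X)) (hE : MeasurableSet E) :
    (Measure.infinitePi (fun _ : Wd d => ν)).real {ω | (fun x => ω (tr v x)) ∈ E} =
      (Measure.infinitePi (fun _ : Wd d => ν)).real E := by
  have h1 := Measure.map_infinitePi_infinitePi_of_inj (P := fun _ : Wd d => ν) (nc_tr_injective v)
  have h2 : {ω : Wd d → X | (fun x => ω (tr v x)) ∈ E} =
    (fun (ω : Wd d → X) (x : Wd d) => ω (tr v x)) ⁻¹' E := rfl
  unfold Measure.real
  rw [h2, ← Measure.map_apply (by fun_prop) hE, h1]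

theorem nc_transfer_real {V H X : Type*} [MeasurableSpace X] (ν : Measure X) [IsProbabilityMeasure ν]
    (ι : V → H) (S : Finset V) (hι : Set.InjOn ι (S : Set V)) (E : Set (V → X))
    (hE : MeasurableSet E) (hdep : DependsOn (fun ω : V → X => ω ∈ E) (S : Set V)) :
    (Measure.infinitePi (fun _ : H => ν)).real {ω | (fun v => ω (ι v)) ∈ E} =
      (Measure.infinitePi (fun _ : V => ν)).real E := by
  unfold Measure.real
  rw [transfer ν ι S hι E hE hdep]

/-- the numerical contradiction -/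
theorem nc_num_contra {nH nQ nC s δ0 e1 : ℝ} (hs : 1 ≤ s) (hC : 1 ≤ nC) (hH : 0 < nH)
    (hHQ : nH ≤ nQ * s ^ 2)
    (h0 : δ0 * (1 + Real.log nC) ≤ 1 / (20 * s ^ 2 * Real.log (20 * s ^ 2))) (hδ0 : 0 ≤ δ0)
    (he1 : e1 = 1 / (60 * s ^ 2 * (Real.log nC + Real.log (20 * s ^ 2))))
    (hc : -(Real.log (1 / (1 / (nC * (20 * s ^ 2)))) * (nH * (δ0 + e1))) -
      Real.log (1 / (1 / 20)) * (nQ * (1 / 20 + e1))
      ≤ nH * (nC * (1 / (nC * (20 * s ^ 2)))) + nQ * Real.log (1 / 2 + 1 / 20 + 1 / 20)) : False := by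
  have hspos : 0 < s := by linarith
  have hnC : 0 < nC := by linarith
  have hs2 : 1 ≤ s ^ 2 := by nlinarith
  have hL1 : 1 ≤ Real.log (20 * s ^ 2) := by
    rw [Real.le_log_iff_exp_le (by positivity)]
    have := Real.exp_one_lt_d9
    nlinarith
  have hlogC : 0 ≤ Real.log nC := Real.log_nonneg hC
  have h1 : Real.log (1 / (1 / (nC * (20 * s ^ 2)))) = Real.log nC + Real.log (20 * s ^ 2) := by
    rw [one_div_one_div, Real.log_mul (by positivity) (by positivity)]
  have h2 : nC * (1 / (nC * (20 * s ^ 2))) = 1 / (20 * s ^ 2) := by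
    field_simp
  have h3 : Real.log (1 / (1 / 20)) ≤ 3 := by
    rw [one_div_one_div, Real.log_le_iff_le_exp (by norm_num)]
    have h := Real.exp_one_gt_d9
    have h4 : Real.exp 3 = Real.exp 1 ^ 3 := by rw [← Real.exp_nat_mul]; norm_num
    rw [h4]
    have h5 : (2.718 : ℝ) ^ 3 ≤ Real.exp 1 ^ 3 := by
      apply pow_le_pow_left₀ (by norm_num); linarith
    have h6 : (20 : ℝ) ≤ 2.718 ^ 3 := by norm_num
    linarith
  have h4 : Real.log (1 / 2 + 1 / 20 + 1 / 20) ≤ -(1 / 2) := by
    rw [Real.log_le_iff_le_exp (by norm_num), Real.exp_neg]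
    rw [le_inv_comm₀ (by norm_num) (Real.exp_pos _)]
    have h := Real.exp_one_lt_d9
    have h4 : Real.exp 1 = Real.exp (1 / 2) ^ 2 := by rw [← Real.exp_nat_mul]; norm_num
    have h5 : Real.exp (1 / 2) ^ 2 ≤ (5 / 3) ^ 2 := by
      rw [← h4]
      have : (2.7182818286 : ℝ) ≤ (5 / 3) ^ 2 := by norm_num
      linarith
    have h6 := le_of_sq_le_sq h5 (by norm_num)
    have h7 : ((1 : ℝ) / 2 + 1 / 20 + 1 / 20)⁻¹ = 5 / 3 := by norm_num
    rw [h7]; exact h6
  set L := Real.log (20 * s ^ 2) with hL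
  set M := Real.log nC with hM
  rw [h1, h2] at hc
  have hQpos : 0 < nQ := by
    by_contra hcon
    push Not at hcon
    have : nQ * s ^ 2 ≤ 0 := mul_nonpos_of_nonpos_of_nonneg hcon (by positivity)
    linarith
  have he1pos : 0 < e1 := by rw [he1]; positivity
  have he1' : (M + L) * s ^ 2 * e1 = 1 / 60 := by
    rw [he1]; field_simp
  have he1le : e1 ≤ 1 / 60 := by
    rw [← he1']
    have : 1 ≤ (M + L) * s ^ 2 := by nlinarith
    nlinarith
  have hd : (M + L) * s ^ 2 * δ0 ≤ 1 / 20 := by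
    have h5 : δ0 * (1 + M) * (20 * s ^ 2 * L) ≤ 1 := by
      have := mul_le_mul_of_nonneg_right h0 (show 0 ≤ 20 * s ^ 2 * L by positivity)
      rwa [one_div, inv_mul_cancel₀ (by positivity)] at this
    have h6 : M + L ≤ L * (1 + M) := by nlinarith
    have h7 : (M + L) * (s ^ 2 * δ0) ≤ L * (1 + M) * (s ^ 2 * δ0) :=
      mul_le_mul_of_nonneg_right h6 (by positivity)
    nlinarith
  have h8 : nH * (1 / (20 * s ^ 2)) ≤ nQ * (1 / 20) := by
    rw [mul_one_div, div_le_iff₀ (by positivity)]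
    linarith
  have h9 : (M + L) * (nH * (δ0 + e1)) ≤ nQ * (1 / 20 + 1 / 60) := by
    have h10 : (M + L) * (nH * (δ0 + e1)) ≤ (M + L) * (nQ * s ^ 2 * (δ0 + e1)) := by
      gcongr
    have h11 : (M + L) * (nQ * s ^ 2 * (δ0 + e1)) =
      nQ * ((M + L) * s ^ 2 * δ0 + (M + L) * s ^ 2 * e1) := by ring
    rw [h11, he1'] at h10
    have h12 : nQ * ((M + L) * s ^ 2 * δ0 + 1 / 60) ≤ nQ * (1 / 20 + 1 / 60) := by gcongr
    linarith
  have h13 : Real.log (1 / (1 / 20)) * (nQ * (1 / 20 + e1)) ≤ 3 * (nQ * (1 / 20 + 1 / 60)) := by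
    gcongr
  have h14 : nQ * Real.log (1 / 2 + 1 / 20 + 1 / 20) ≤ nQ * (-(1 / 2)) :=
    mul_le_mul_of_nonneg_left h4 hQpos.le
  nlinarith

/-- Module NOCODING -/
theorem no_small_coding {d : ℕ} {B : Type} [Finite B] [MeasurableSpace B]
    [MeasurableSingletonClass B] (f0 : (Wd d → I) → B) (hf0 : Measurable f0)
    (hfair : ∀ b, (Measure.infinitePi (fun _ : Wd d => (volume : Measure I))).real
      {ω | f0 ω = b} ≤ 1 / 2)
    (h : ∀ ε : ℝ, 0 < ε → ∃ (C : Type) (_ : Fintype C) (_ : MeasurableSpace C)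
      (_ : MeasurableSingletonClass C) (star : C) (g : (Wd d → I) → C) (K : Finset (Wd d))
      (ψ : (Wd d → C) → B), Measurable g ∧ DependsOn ψ (K : Set (Wd d)) ∧
      (∀ᵐ ω ∂(Measure.infinitePi (fun _ : Wd d => (volume : Measure I))),
        f0 ω = ψ (fun v => g (fun x => ω (tr v x)))) ∧
      (Measure.infinitePi (fun _ : Wd d => (volume : Measure I))).real {ω | g ω ≠ star} *
        (1 + Real.log (Fintype.card C)) ≤ ε) : False := by
  classical
  set P : Measure (Wd d → I) := Measure.infinitePi (fun _ : Wd d => (volume : Measure I)) with hP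
  have : Fintype B := Fintype.ofFinite B
  have : Nonempty B := ⟨f0 (fun _ => 0)⟩
  obtain ⟨S0, ft, hft, hdep0, hft0⟩ := exists_local_approx P f0 hf0 (1 / 20) (by norm_num)
  set S : Finset (Wd d) := insert (Wd.root d) S0 with hS
  have hdepS : DependsOn ft (S : Set (Wd d)) := hdep0.mono (by simp [hS])
  have hSne : S.Nonempty := ⟨Wd.root d, by simp [hS]⟩
  set s : ℝ := (S.card : ℝ) with hs
  have hs1 : 1 ≤ s := by
    rw [hs]; exact_mod_cast hSne.card_pos
  set L : ℝ := Real.log (20 * s ^ 2) with hL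
  have hL1 : 1 ≤ L := by
    rw [hL, Real.le_log_iff_exp_le (by positivity)]
    have := Real.exp_one_lt_d9
    nlinarith
  obtain ⟨C, iC, iC2, iC3, star, g, K, ψ, hg, hψ, hae, hsmall⟩ :=
    h (1 / (20 * s ^ 2 * L)) (by positivity)
  set δ0 : ℝ := P.real {ω | g ω ≠ star} with hδ0
  have : Nonempty C := ⟨star⟩
  have hCc : (1 : ℝ) ≤ Fintype.card C := by exact_mod_cast Fintype.card_pos
  have hlogC : 0 ≤ Real.log (Fintype.card C) := Real.log_nonneg hCc
  set e1 : ℝ := 1 / (60 * s ^ 2 * (Real.log (Fintype.card C) + L)) with he1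
  have he1pos : 0 < e1 := by positivity
  obtain ⟨Sg, gt, hgt, hdepg, hgt0⟩ := exists_local_approx P g hg (e1 / (K.card + 1)) (by positivity)
  -- shifted version
  set T : Finset (Wd d) := S ∪ Sg ∪ K.biUnion (fun v => Sg.image (tr v)) with hT
  obtain ⟨H, iH, iHn, β, hβ, hinj, hmodel⟩ := exists_finite_model d T
  obtain ⟨Q, hQdisj, hQcard⟩ := hmodel S (by
    intro x hx; simp only [hT, Finset.mem_union]; exact Or.inl (Or.inl hx)) hSne
  set PH : Measure (H → I) := Measure.infinitePi (fun _ : H => (volume : Measure I)) with hPH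
  let y : H → (H → I) → B := fun h ω => ft (fun x => ω (ev β h x))
  let c : H → (H → I) → C := fun h ω => gt (fun x => ω (ev β h x))
  let ψH : H → (H → C) → B := fun h z => ψ (fun v => z (ev β h v))
  have hy : ∀ h, Measurable (y h) := fun h => hft.comp (by fun_prop)
  have hc : ∀ h, Measurable (c h) := fun h => hgt.comp (by fun_prop)
  have hind : iIndepFun (fun q : Q => y q) PH :=
    indep_local (volume : Measure I) ft hft S hdepS Q (fun h => ev β h) hQdisj
  have hinjS : ∀ h, Set.InjOn (ev β h) (S : Set (Wd d)) := fun h => (hinj h).mono (by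
    intro x hx
    simp only [hT, Finset.coe_union, Set.mem_union]
    exact Or.inl (Or.inl hx))
  have hinjSg : ∀ h, Set.InjOn (ev β h) (Sg : Set (Wd d)) := fun h => (hinj h).mono (by
    intro x hx
    simp only [hT, Finset.coe_union, Set.mem_union]
    exact Or.inl (Or.inr hx))
  -- (1) single site marginals
  have hη : ∀ h ∈ Q, ∀ b, PH.real {ω | y h ω = b} ≤ 1 / 2 + 1 / 20 := by
    intro h _ b
    have h1 := nc_transfer_real (volume : Measure I) (ev β h) S (hinjS h) {ω | ft ω = b}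
      (hft (measurableSet_singleton b)) (by
        intro x z hxz
        simp only [Set.mem_ofPred_eq]
        rw [hdepS hxz])
    have h2 : PH.real {ω | y h ω = b} = P.real {ω | ft ω = b} := h1
    rw [h2]
    have h3 : {ω | ft ω = b} ⊆ {ω | f0 ω = b} ∪ {ω | ft ω ≠ f0 ω} := by
      intro ω hω
      by_cases hc : ft ω = f0 ω
      · left
        rw [Set.mem_ofPred_eq] at hω ⊢
        rw [← hc, hω]
      · right; exact hc
    calc P.real {ω | ft ω = b} ≤ P.real ({ω | f0 ω = b} ∪ {ω | ft ω ≠ f0 ω}) := measureReal_mono h3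
      _ ≤ P.real {ω | f0 ω = b} + P.real {ω | ft ω ≠ f0 ω} := measureReal_union_le _ _
      _ ≤ 1 / 2 + 1 / 20 := add_le_add (hfair b) hft0
  -- (2) the code
  have hδ : ∀ h, PH.real {ω | c h ω ≠ star} ≤ δ0 + e1 := by
    intro h
    have h1 := nc_transfer_real (volume : Measure I) (ev β h) Sg (hinjSg h) {ω | gt ω ≠ star}
      (hgt (measurableSet_singleton star).compl) (by
        intro x z hxz
        simp only [Set.mem_ofPred_eq]
        rw [hdepg hxz])
    have h2 : PH.real {ω | c h ω ≠ star} = P.real {ω | gt ω ≠ star} := h1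
    rw [h2]
    have h3 : {ω | gt ω ≠ star} ⊆ {ω | g ω ≠ star} ∪ {ω | gt ω ≠ g ω} := by
      intro ω hω
      by_cases hc : gt ω = g ω
      · left
        rw [Set.mem_ofPred_eq] at hω ⊢
        rw [← hc]; exact hω
      · right; exact hc
    have h4 : e1 / (K.card + 1) ≤ e1 := div_le_self he1pos.le (by
      have : (0 : ℝ) ≤ K.card := Nat.cast_nonneg _
      linarith)
    calc P.real {ω | gt ω ≠ star} ≤ P.real ({ω | g ω ≠ star} ∪ {ω | gt ω ≠ g ω}) :=
          measureReal_mono h3
      _ ≤ P.real {ω | g ω ≠ star} + P.real {ω | gt ω ≠ g ω} := measureReal_union_le _ _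
      _ ≤ δ0 + e1 := add_le_add le_rfl (hgt0.trans h4)
  -- (3) decoding
  let Ψ : (Wd d → I) → B := fun w => ψ (fun v => gt (fun x => w (tr v x)))
  have hΨm : Measurable Ψ := by
    let ψK : (K → C) → B := fun z => ψ (fun v => if h : v ∈ K then z ⟨v, h⟩ else star)
    have h1 : Ψ = ψK ∘ fun (w : Wd d → I) (v : K) => gt (fun x => w (tr v x)) := by
      funext w
      show ψ _ = ψ _
      apply hψ
      intro v hv
      have hv' : v ∈ K := hv
      simp [hv']
    rw [h1]
    refine (measurable_of_finite ψK).comp ?_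
    exact measurable_pi_lambda _ fun v => hgt.comp (by fun_prop)
  have hΨdep : DependsOn Ψ (T : Set (Wd d)) := by
    intro w w' hww
    show ψ _ = ψ _
    apply hψ
    intro v hv
    apply hdepg
    intro x hx
    apply hww
    simp only [hT, Finset.coe_union, Set.mem_union]
    right
    simp only [Finset.coe_biUnion, Set.mem_iUnion, Finset.coe_image]
    exact ⟨v, hv, x, hx, rfl⟩
  have hE' : MeasurableSet {ω | ft ω ≠ Ψ ω} := by
    have h2 : Measurable fun ω => (ft ω, Ψ ω) := hft.prodMk hΨm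
    have h3 : MeasurableSet {p : B × B | p.1 ≠ p.2} := (Set.toFinite _).measurableSet
    exact h2 h3
  have hη' : ∀ h ∈ Q, PH.real {ω | y h ω ≠ ψH h (fun h' => c h' ω)} ≤ 1 / 20 + e1 := by
    intro h _
    have h1 := nc_transfer_real (volume : Measure I) (ev β h) T (hinj h) {ω | ft ω ≠ Ψ ω} hE' (by
        intro x z hxz
        simp only [Set.mem_ofPred_eq]
        rw [hdepS (fun i hi => hxz i (by
          simp only [hT, Finset.coe_union, Set.mem_union]
          exact Or.inl (Or.inl hi))), hΨdep hxz])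
    have h2 : {ω | y h ω ≠ ψH h (fun h' => c h' ω)} =
        {ω : H → I | (fun v => ω (ev β h v)) ∈ {ω | ft ω ≠ Ψ ω}} := by
      ext ω
      simp only [Set.mem_ofPred_eq, y, ψH, c, Ψ]
      simp only [ev_tr hβ]
    rw [h2, h1]
    have h3 : {ω | ft ω ≠ Ψ ω} ⊆ {ω | ft ω ≠ f0 ω} ∪
        ({ω | ¬ f0 ω = ψ (fun v => g (fun x => ω (tr v x)))} ∪
          ⋃ v ∈ K, {ω : Wd d → I | (fun x => ω (tr v x)) ∈ {ω | gt ω ≠ g ω}}) := by
      intro ω hω
      by_contra hcon
      simp only [Set.mem_union, Set.mem_ofPred_eq, not_or, not_not, Set.mem_iUnion, not_exists] at hcon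
      obtain ⟨h1, h2, h3⟩ := hcon
      apply hω
      show ft ω = ψ _
      rw [h1, h2]
      apply hψ
      intro v hv
      exact (h3 v hv).symm
    have h4 : P.real (⋃ v ∈ K, {ω : Wd d → I | (fun x => ω (tr v x)) ∈ {ω | gt ω ≠ g ω}}) ≤ e1 := by
      have hms : MeasurableSet {ω | gt ω ≠ g ω} := by
        have h2 : Measurable fun ω => (gt ω, g ω) := hgt.prodMk hg
        have h3 : MeasurableSet {p : C × C | p.1 ≠ p.2} := (Set.toFinite _).measurableSet
        exact h2 h3
      calc P.real (⋃ v ∈ K, {ω : Wd d → I | (fun x => ω (tr v x)) ∈ {ω | gt ω ≠ g ω}})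
          ≤ ∑ v ∈ K, P.real {ω : Wd d → I | (fun x => ω (tr v x)) ∈ {ω | gt ω ≠ g ω}} :=
            measureReal_biUnion_finset_le _ _
        _ = ∑ v ∈ K, P.real {ω | gt ω ≠ g ω} :=
            Finset.sum_congr rfl fun v _ => nc_real_tr (volume : Measure I) v _ hms
        _ ≤ ∑ v ∈ K, e1 / (K.card + 1) := Finset.sum_le_sum fun v _ => hgt0
        _ = K.card * (e1 / (K.card + 1)) := by rw [Finset.sum_const, nsmul_eq_mul]
        _ ≤ e1 := by
            rw [mul_div_assoc', div_le_iff₀ (by positivity)]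
            nlinarith
    have h5 : P.real {ω | ¬ f0 ω = ψ (fun v => g (fun x => ω (tr v x)))} = 0 := by
      unfold Measure.real
      rw [ae_iff.1 hae]; simp
    calc P.real {ω | ft ω ≠ Ψ ω} ≤ P.real ({ω | ft ω ≠ f0 ω} ∪
        ({ω | ¬ f0 ω = ψ (fun v => g (fun x => ω (tr v x)))} ∪
          ⋃ v ∈ K, {ω : Wd d → I | (fun x => ω (tr v x)) ∈ {ω | gt ω ≠ g ω}})) := measureReal_mono h3
      _ ≤ P.real {ω | ft ω ≠ f0 ω} + P.real ({ω | ¬ f0 ω = ψ (fun v => g (fun x => ω (tr v x)))} ∪
          ⋃ v ∈ K, {ω : Wd d → I | (fun x => ω (tr v x)) ∈ {ω | gt ω ≠ g ω}}) :=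
          measureReal_union_le _ _
      _ ≤ P.real {ω | ft ω ≠ f0 ω} + (P.real {ω | ¬ f0 ω = ψ (fun v => g (fun x => ω (tr v x)))} +
          P.real (⋃ v ∈ K, {ω : Wd d → I | (fun x => ω (tr v x)) ∈ {ω | gt ω ≠ g ω}})) := by
          gcongr
          exact measureReal_union_le _ _
      _ ≤ 1 / 20 + (0 + e1) := by
          rw [h5]
          gcongr
      _ = 1 / 20 + e1 := by ring
  -- (4) counting
  have hspos : 0 < s := by linarith
  have hx : (0 : ℝ) < 1 / (Fintype.card C * (20 * s ^ 2)) := by positivity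
  have hx1 : 1 / (Fintype.card C * (20 * s ^ 2)) ≤ 1 := by
    rw [div_le_one (by positivity)]
    nlinarith
  have hcount := counting PH star y hy c hc Q hind ψH (1 / 20) (1 / 20 + e1) (δ0 + e1)
    (1 / (Fintype.card C * (20 * s ^ 2))) (1 / 20) hη hη' hδ hx hx1 (by norm_num) (by norm_num)
    (by norm_num)
  refine nc_num_contra (nH := Fintype.card H) (nQ := Q.card) (nC := Fintype.card C) (s := s) (δ0 := δ0)
    (e1 := e1) hs1 hCc ?_ ?_ hsmall ?_ he1 hcount
  · exact_mod_cast Fintype.card_pos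
  · rw [hs]; exact_mod_cast hQcard
  · exact measureReal_nonneg

end P8ebff2
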