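import Mathlib
/-! Choice of parameters. -/
open Filter Topology
namespace P8ebff2

/-- Module PARAMS -/
theorem exists_params (N d : ℕ) (ε : ℝ) (hε : 0 < ε) :
    ∃ k ρ : ℕ, (1 / ((k + 1 : ℕ) : ℝ) + d * (1 - 1 / ((k + 1 : ℕ) : ℝ)) ^ (2 ^ ρ)) *
      (1 + Real.log (N : ℝ)) ≤ ε := by
  have hL : 0 < 1 + Real.log (N : ℝ) := by
    have : 0 ≤ Real.log (N : ℝ) := Real.log_natCast_nonneg N
    linarith
  obtain ⟨k, hk⟩ := exists_nat_gt (2 * (1 + Real.log (N : ℝ)) / ε)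
  have hk1 : (0 : ℝ) < ((k + 1 : ℕ) : ℝ) := by positivity
  have h1 : 1 / ((k + 1 : ℕ) : ℝ) * (1 + Real.log (N : ℝ)) ≤ ε / 2 := by
    rw [div_lt_iff₀ hε] at hk
    rw [one_div, inv_mul_le_iff₀ hk1]
    push_cast
    nlinarith
  set q : ℝ := 1 - 1 / ((k + 1 : ℕ) : ℝ) with hq
  have hq0 : 0 ≤ q := by
    rw [hq, sub_nonneg, div_le_one hk1]
    push_cast
    have : (0 : ℝ) ≤ k := Nat.cast_nonneg k
    linarith
  have hq1 : q < 1 := by
    rw [hq]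
    have : (0 : ℝ) < 1 / ((k + 1 : ℕ) : ℝ) := by positivity
    linarith
  have hlim : Tendsto (fun ρ : ℕ => (d : ℝ) * q ^ (2 ^ ρ) * (1 + Real.log (N : ℝ))) atTop
      (𝓝 (d * 0 * (1 + Real.log (N : ℝ)))) := by
    have h2 : Tendsto (fun n : ℕ => q ^ n) atTop (𝓝 0) := tendsto_pow_atTop_nhds_zero_of_lt_one hq0 hq1
    have h3 : Tendsto (fun ρ : ℕ => 2 ^ ρ) atTop atTop :=
      tendsto_pow_atTop_atTop_of_one_lt (by norm_num)
    exact ((h2.comp h3).const_mul _).mul_const _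
  rw [mul_zero, zero_mul] at hlim
  obtain ⟨ρ, hρ⟩ := (hlim.eventually (gt_mem_nhds (show (0 : ℝ) < ε / 2 by positivity))).exists
  refine ⟨k, ρ, ?_⟩
  rw [add_mul]
  linarith

end P8ebff2
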