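import Mathlib
import Pool.Agent.Lib.P8ebff2.Params
/-! The sequences of parameters. -/
namespace P8ebff2

theorem exists_sequences (d : ℕ) : ∃ M k ρ : ℕ → ℕ, M 0 = 1 ∧
    (∀ n, M (n + 1) + 1 = (k n + 1) * ((M n + 1) * (M n + 1))) ∧
    ∀ n, (1 / ((k n + 1 : ℕ) : ℝ) + d * (1 - 1 / ((k n + 1 : ℕ) : ℝ)) ^ (2 ^ (ρ n))) *
      (1 + Real.log (((M n + 2) * (M n + 2) : ℕ) : ℝ)) ≤ 1 / (n + 1) := by
  have h : ∀ n m : ℕ, ∃ k ρ : ℕ,
      (1 / ((k + 1 : ℕ) : ℝ) + d * (1 - 1 / ((k + 1 : ℕ) : ℝ)) ^ (2 ^ ρ)) *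
      (1 + Real.log (((m + 2) * (m + 2) : ℕ) : ℝ)) ≤ 1 / (n + 1) :=
    fun n m => exists_params ((m + 2) * (m + 2)) d _ (by positivity)
  choose K R hKR using h
  let M : ℕ → ℕ := fun n => Nat.rec 1 (fun n m => (K n m + 1) * ((m + 1) * (m + 1)) - 1) n
  refine ⟨M, fun n => K n (M n), fun n => R n (M n), rfl, fun n => ?_, fun n => hKR n (M n)⟩
  change M (n + 1) + 1 = (K n (M n) + 1) * ((M n + 1) * (M n + 1))
  have : M (n + 1) = (K n (M n) + 1) * ((M n + 1) * (M n + 1)) - 1 := rfl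
  rw [this]
  have : 0 < (K n (M n) + 1) * ((M n + 1) * (M n + 1)) := by positivity
  omega

end P8ebff2
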