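import Mathlib

/-!
Inverse limit of a sequence of compact metrizable probability spaces along continuous
measure preserving maps.
-/

open MeasureTheory ProbabilityTheory Filter Topology
open scoped ENNReal

namespace P8ebff2

section

variable {Y : ℕ → Type*}

/-- The point of the product with coordinate `y` at `n`, its images below `n` and default
coordinates above. -/
noncomputable def liftG (pt : ∀ n, Y n) (F : ∀ n, Y (n + 1) → Y n) : ∀ n, Y n → ∀ k, Y k
  | 0, y => Function.update pt 0 y
  | n + 1, y => Function.update (liftG pt F n (F n y)) (n + 1) y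

variable {pt : ∀ n, Y n} {F : ∀ n, Y (n + 1) → Y n}

lemma liftG_self (n : ℕ) (y : Y n) : liftG pt F n y n = y := by
  cases n <;> simp [liftG]

lemma liftG_succ_of_le {n k : ℕ} (h : k ≤ n) (y : Y (n + 1)) :
    liftG pt F (n + 1) y k = liftG pt F n (F n y) k := by
  rw [liftG, Function.update_of_ne (by omega)]

lemma liftG_chain {n k : ℕ} (h : k < n) (y : Y n) :
    F k (liftG pt F n y (k + 1)) = liftG pt F n y k := by
  induction n with
  | zero => omega
  | succ n ih =>
    rcases Nat.lt_succ_iff_lt_or_eq.1 h with h' | h'
    · rw [liftG_succ_of_le (by omega), liftG_succ_of_le (by omega), ih h']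
    · subst h'
      rw [liftG_self, liftG_succ_of_le le_rfl, liftG_self]

lemma continuous_liftG [∀ n, TopologicalSpace (Y n)] (hF : ∀ n, Continuous (F n)) (n : ℕ) :
    Continuous (liftG pt F n) := by
  induction n with
  | zero => exact continuous_const.update 0 continuous_id
  | succ n ih => exact (ih.comp (hF n)).update (n + 1) continuous_id

lemma eq_liftG_of_chain {y : ∀ n, Y n} {n k : ℕ} (hk : k ≤ n)
    (h : ∀ m < n, F m (y (m + 1)) = y m) : liftG pt F n (y n) k = y k := by
  induction n with
  | zero =>
    obtain rfl : k = 0 := by omega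
    rw [liftG_self]
  | succ n ih =>
    rcases Nat.le_succ_iff.1 hk with h' | h'
    · rw [liftG_succ_of_le h', h n (by omega)]
      exact ih h' (fun m hm => h m (by omega))
    · subst h'
      rw [liftG_self]

end

section unique

variable {Y : ℕ → Type*} [∀ n, MeasurableSpace (Y n)]

/-- A probability on the product with given marginals, concentrated on the inverse limit, is
unique. -/
lemma inverse_limit_unique {π : ∀ n, Measure (Y n)} {F : ∀ n, Y (n + 1) → Y n}
    (hF : ∀ n, Measurable (F n)) {μ ν : Measure (∀ n, Y n)} [IsProbabilityMeasure μ]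
    [IsProbabilityMeasure ν] (pt : ∀ n, Y n)
    (hμ : ∀ n, μ.map (fun y => y n) = π n) (hν : ∀ n, ν.map (fun y => y n) = π n)
    (hμF : ∀ n, ∀ᵐ y ∂μ, F n (y (n + 1)) = y n) (hνF : ∀ n, ∀ᵐ y ∂ν, F n (y (n + 1)) = y n) :
    μ = ν := by
  have hmeas : ∀ n, Measurable (liftG pt F n) := by
    intro n
    induction n with
    | zero =>
      rw [measurable_pi_iff]
      intro k
      by_cases hk : k = 0
      · subst hk
        have : (fun y : Y 0 => liftG pt F 0 y 0) = id := by
          funext y; exact liftG_self 0 y
        rw [this]; exact measurable_id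
      · have : (fun y : Y 0 => liftG pt F 0 y k) = fun _ => pt k := by
          funext y; simp [liftG, Function.update_of_ne hk]
        rw [this]; exact measurable_const
    | succ n ih =>
      rw [measurable_pi_iff]
      intro k
      by_cases hk : k = n + 1
      · subst hk
        have : (fun y : Y (n + 1) => liftG pt F (n + 1) y (n + 1)) = id := by
          funext y; exact liftG_self (n + 1) y
        rw [this]; exact measurable_id
      · have : (fun y : Y (n + 1) => liftG pt F (n + 1) y k) =
            fun y => liftG pt F n (F n y) k := by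
          funext y; rw [liftG, Function.update_of_ne hk]
        rw [this]
        exact (measurable_pi_apply k).comp (ih.comp (hF n))
  have key : ∀ (ρ : Measure (∀ n, Y n)), (∀ n, ρ.map (fun y => y n) = π n) →
      (∀ n, ∀ᵐ y ∂ρ, F n (y (n + 1)) = y n) → ∀ (I : Finset ℕ),
      ρ.map I.restrict = (π (I.sup id)).map (fun u => I.restrict (liftG pt F (I.sup id) u)) := by
    intro ρ h1 h2 I
    have h3 : ∀ᵐ y ∂ρ, ∀ n, F n (y (n + 1)) = y n := ae_all_iff.2 h2
    have h4 : ρ.map I.restrict =
        ρ.map ((fun u => I.restrict (liftG pt F (I.sup id) u)) ∘ fun y => y (I.sup id)) := by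
      apply Measure.map_congr
      filter_upwards [h3] with y hy
      funext k
      simp only [Finset.restrict, Function.comp_apply]
      exact (eq_liftG_of_chain (Finset.le_sup (f := id) k.2) (fun m _ => hy m)).symm
    have h5 : Measurable (fun u => I.restrict (liftG pt F (I.sup id) u)) :=
      (Finset.measurable_restrict I).comp (hmeas _)
    rw [h4, ← Measure.map_map h5 (measurable_pi_apply _), h1]
  have h1 : IsProjectiveLimit μ
      (fun I : Finset ℕ => (π (I.sup id)).map (fun u => I.restrict (liftG pt F (I.sup id) u))) :=
    fun I => key μ hμ hμF I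
  have h2 : IsProjectiveLimit ν
      (fun I : Finset ℕ => (π (I.sup id)).map (fun u => I.restrict (liftG pt F (I.sup id) u))) :=
    fun I => key ν hν hνF I
  have : ∀ I : Finset ℕ, IsFiniteMeasure
      ((fun I : Finset ℕ => (π (I.sup id)).map
        (fun u => I.restrict (liftG pt F (I.sup id) u))) I) := by
    intro I
    rw [← h1 I]
    infer_instance
  exact h1.unique h2

end unique

/-- Module LIMIT -/
theorem exists_inverse_limit {Y : ℕ → Type*} [∀ n, TopologicalSpace (Y n)]
    [∀ n, CompactSpace (Y n)] [∀ n, TopologicalSpace.MetrizableSpace (Y n)]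
    [∀ n, MeasurableSpace (Y n)] [∀ n, BorelSpace (Y n)] (π : ∀ n, Measure (Y n))
    [∀ n, IsProbabilityMeasure (π n)] (F : ∀ n, Y (n + 1) → Y n) (hF : ∀ n, Continuous (F n))
    (hπ : ∀ n, (π (n + 1)).map (F n) = π n) :
    ∃ μ : Measure (∀ n, Y n), IsProbabilityMeasure μ ∧ (∀ n, μ.map (fun y => y n) = π n) ∧
      (∀ n, ∀ᵐ y ∂μ, F n (y (n + 1)) = y n) ∧
      ∀ T : ∀ n, Y n → Y n, (∀ n, Continuous (T n)) → (∀ n, (π n).map (T n) = π n) →
        (∀ n y, F n (T (n + 1) y) = T n (F n y)) → μ.map (fun y n => T n (y n)) = μ := by
  have hsc : ∀ n, SecondCountableTopology (Y n) := by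
    intro n
    let _ := TopologicalSpace.metrizableSpaceMetric (Y n)
    infer_instance
  have hne : ∀ n, Nonempty (Y n) := fun n => nonempty_of_isProbabilityMeasure (π n)
  let pt : ∀ n, Y n := fun n => (hne n).some
  -- the approximating measures
  have hGc : ∀ n, Continuous (liftG pt F n) := fun n => continuous_liftG hF n
  let m : ℕ → ProbabilityMeasure (∀ n, Y n) := fun n =>
    ⟨(π n).map (liftG pt F n), Measure.isProbabilityMeasure_map (hGc n).measurable.aemeasurable⟩
  have hmarg : ∀ n k, k ≤ n → (π n).map (fun y => liftG pt F n y k) = π k := by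
    intro n
    induction n with
    | zero =>
      intro k hk
      obtain rfl : k = 0 := by omega
      have : (fun y : Y 0 => liftG pt F 0 y 0) = id := by
        funext y; exact liftG_self 0 y
      rw [this, Measure.map_id]
    | succ n ih =>
      intro k hk
      rcases Nat.le_succ_iff.1 hk with h' | h'
      · have : (fun y : Y (n + 1) => liftG pt F (n + 1) y k) =
            (fun y => liftG pt F n y k) ∘ F n := by
          funext y; exact liftG_succ_of_le h' y
        rw [this, ← Measure.map_map _ (hF n).measurable, hπ, ih k h']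
        exact ((continuous_apply k).comp (hGc n)).measurable
      · subst h'
        have : (fun y : Y (n + 1) => liftG pt F (n + 1) y (n + 1)) = id := by
          funext y; exact liftG_self (n + 1) y
        rw [this, Measure.map_id]
  obtain ⟨μ, -, hμ⟩ := (isCompact_univ (X := ProbabilityMeasure (∀ n, Y n))).ultrafilter_le_nhds
    ((hyperfilter ℕ).map m) (by simp)
  have hμ' : Tendsto m (hyperfilter ℕ) (𝓝 μ) := hμ
  have hev : ∀ n : ℕ, ∀ᶠ k in (hyperfilter ℕ : Filter ℕ), n ≤ k := fun n =>
    Filter.Tendsto.eventually (f := id) (Nat.hyperfilter_le_atTop) (eventually_ge_atTop n)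
  -- first marginals
  have h1 : ∀ n, (μ : Measure (∀ n, Y n)).map (fun y => y n) = π n := by
    intro n
    have hc : Continuous (fun y : (∀ n, Y n) => y n) := continuous_apply n
    have h2 : Tendsto (fun k => (m k).map hc.measurable.aemeasurable) (hyperfilter ℕ)
        (𝓝 (μ.map hc.measurable.aemeasurable)) :=
      ProbabilityMeasure.tendsto_map_of_tendsto_of_continuous m μ hμ' hc
    have h3 : Tendsto (fun k => (m k).map hc.measurable.aemeasurable) (hyperfilter ℕ)
        (𝓝 (⟨π n, inferInstance⟩ : ProbabilityMeasure (Y n))) := by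
      apply tendsto_const_nhds.congr'
      filter_upwards [hev n] with k hk
      apply Subtype.ext
      show π n = ((π k).map (liftG pt F k)).map (fun y => y n)
      rw [Measure.map_map hc.measurable (hGc k).measurable]
      exact (hmarg k n hk).symm
    have h4 := tendsto_nhds_unique h2 h3
    have h5 := congrArg (fun ρ : ProbabilityMeasure (Y n) => (ρ : Measure (Y n))) h4
    simpa using h5
  have h2 : ∀ n, ∀ᵐ y ∂(μ : Measure (∀ n, Y n)), F n (y (n + 1)) = y n := by
    intro n
    have hc : Continuous (fun y : (∀ n, Y n) => (F n (y (n + 1)), y n)) :=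
      ((hF n).comp (continuous_apply _)).prodMk (continuous_apply n)
    have hd : Measurable (fun u : Y n => (u, u)) := measurable_id.prodMk measurable_id
    have h2 : Tendsto (fun k => (m k).map hc.measurable.aemeasurable) (hyperfilter ℕ)
        (𝓝 (μ.map hc.measurable.aemeasurable)) :=
      ProbabilityMeasure.tendsto_map_of_tendsto_of_continuous m μ hμ' hc
    have h3 : Tendsto (fun k => (m k).map hc.measurable.aemeasurable) (hyperfilter ℕ)
        (𝓝 (⟨(π n).map (fun u => (u, u)), Measure.isProbabilityMeasure_map hd.aemeasurable⟩ :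
          ProbabilityMeasure (Y n × Y n))) := by
      apply tendsto_const_nhds.congr'
      filter_upwards [hev (n + 1)] with k hk
      apply Subtype.ext
      show (π n).map (fun u => (u, u)) =
        ((π k).map (liftG pt F k)).map (fun y => (F n (y (n + 1)), y n))
      have hcn : Measurable (fun y => liftG pt F k y n) :=
        ((continuous_apply n).comp (hGc k)).measurable
      rw [Measure.map_map hc.measurable (hGc k).measurable, ← hmarg k n (by omega),
        Measure.map_map hd hcn]
      congr 1
      funext y
      simp only [Function.comp_apply]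
      rw [liftG_chain (pt := pt) (F := F) (n := k) (k := n) (by omega) y]
    have h4 := tendsto_nhds_unique h2 h3
    have h5 : (μ : Measure (∀ n, Y n)).map (fun y => (F n (y (n + 1)), y n)) =
        (π n).map (fun u => (u, u)) := by
      have := congrArg (fun ρ : ProbabilityMeasure (Y n × Y n) => (ρ : Measure (Y n × Y n))) h4
      simpa using this
    have hset : MeasurableSet {p : Y n × Y n | p.1 = p.2} := measurableSet_diagonal
    have h6 : ∀ᵐ p ∂((μ : Measure (∀ n, Y n)).map (fun y => (F n (y (n + 1)), y n))),
        p.1 = p.2 := by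
      rw [h5, ae_map_iff hd.aemeasurable hset]
      exact ae_of_all _ fun _ => rfl
    rw [ae_map_iff hc.measurable.aemeasurable hset] at h6
    exact h6
  refine ⟨μ, inferInstance, h1, h2, ?_⟩
  intro T hTc hTπ hTF
  have hTm : Measurable (fun (y : ∀ n, Y n) n => T n (y n)) :=
    (continuous_pi fun n => (hTc n).comp (continuous_apply n)).measurable
  have : IsProbabilityMeasure ((μ : Measure (∀ n, Y n)).map (fun y n => T n (y n))) :=
    Measure.isProbabilityMeasure_map hTm.aemeasurable
  apply inverse_limit_unique (fun n => (hF n).measurable) pt _ h1 _ h2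
  · intro n
    rw [Measure.map_map (measurable_pi_apply n) hTm]
    have : ((fun y : ∀ n, Y n => y n) ∘ fun (y : ∀ n, Y n) n => T n (y n)) =
        T n ∘ fun y => y n := rfl
    rw [this, ← Measure.map_map (hTc n).measurable (measurable_pi_apply n), h1, hTπ]
  · intro n
    have hset : MeasurableSet {y : ∀ n, Y n | F n (y (n + 1)) = y n} :=
      measurableSet_eq_fun ((hF n).measurable.comp (measurable_pi_apply _)) (measurable_pi_apply n)
    rw [ae_map_iff hTm.aemeasurable hset]
    filter_upwards [h2 n] with y hy
    rw [hTF, hy]

end P8ebff2
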