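import Mathlib
import Pool.Agent.Lib.P8ebff2.Word
/-! The graph on the words is the `d`-regular tree, and right translations are automorphisms. -/
namespace P8ebff2

theorem td_connected (d : ℕ) : (Td d).Connected := by
  have hr : ∀ x : Wd d, (Td d).Reachable (Wd.root d) x := by
    intro x
    induction x using Wd.induct with
    | h0 => exact SimpleGraph.Reachable.refl _
    | h1 i x ih => exact ih.trans (SimpleGraph.Adj.reachable ⟨i, rfl⟩)
  have : Nonempty (Wd d) := ⟨Wd.root d⟩
  exact ⟨fun x y => (hr x).symm.trans (hr y)⟩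

theorem adj_shorter {d : ℕ} {u w : Wd d} (h : (Td d).Adj u w) (hl : w.1.length ≤ u.1.length) :
    w.1 = u.1.tail := by
  obtain ⟨i, rfl⟩ := h
  rw [act_val] at hl ⊢
  split_ifs at hl ⊢ with h1
  · rfl
  · simp at hl

theorem td_isAcyclic (d : ℕ) : (Td d).IsAcyclic := by
  classical
  intro v c hc
  obtain ⟨u, hu, hmax⟩ := Finset.exists_max_image c.support.toFinset (fun x => x.1.length)
    ⟨v, by simp⟩
  rw [List.mem_toFinset] at hu
  have hc' := hc.rotate hu
  have hsup : ∀ x ∈ (c.rotate u hu).support, x.1.length ≤ u.1.length := by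
    intro x hx
    apply hmax
    rw [List.mem_toFinset]
    by_cases hxu : x = u
    · rw [hxu]; exact hu
    · rw [← SimpleGraph.Walk.cons_tail_support, List.mem_cons] at hx
      rcases hx with hx | hx
      · exact absurd hx hxu
      · have h1 := c.support_rotate u hu
        have h2 := (h1.mem_iff).1 hx
        exact List.mem_of_mem_tail h2
  have hnn : ¬ (c.rotate u hu).Nil := hc'.not_nil
  have h1 : (Td d).Adj u (c.rotate u hu).snd := SimpleGraph.Walk.adj_snd hnn
  have h2 : (Td d).Adj (c.rotate u hu).penultimate u := SimpleGraph.Walk.adj_penultimate hnn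
  have e1 := adj_shorter h1 (hsup _ (SimpleGraph.Walk.getVert_mem_support _ _))
  have e2 := adj_shorter h2.symm (hsup _ (SimpleGraph.Walk.getVert_mem_support _ _))
  exact hc'.snd_ne_penultimate (Wd.ext' (e1.trans e2.symm))

/-- Module TREE -/
theorem td_isTree (d : ℕ) : (Td d).IsTree := ⟨td_connected d, td_isAcyclic d⟩

theorem td_neighborSet {d : ℕ} (v : Wd d) :
    (Td d).neighborSet v = Set.range (fun i : Fin d => act i v) := by
  ext w
  rw [SimpleGraph.mem_neighborSet, td_adj, Set.mem_range]
  constructor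
  · rintro ⟨i, hi⟩; exact ⟨i, hi.symm⟩
  · rintro ⟨i, hi⟩; exact ⟨i, hi.symm⟩

theorem td_ncard {d : ℕ} (v : Wd d) : ((Td d).neighborSet v).ncard = d := by
  rw [td_neighborSet, ← Set.image_univ, Set.ncard_image_of_injective _ (act_injective v),
    Set.ncard_univ, Nat.card_eq_fintype_card, Fintype.card_fin]

theorem td_finite_nbr {d : ℕ} (v : Wd d) : ((Td d).neighborSet v).Finite := by
  rw [td_neighborSet]
  exact Set.finite_range _

theorem exists_length {d : ℕ} (hd : 2 ≤ d) (n : ℕ) : ∃ v : Wd d, v.1.length = n := by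
  induction n with
  | zero => exact ⟨Wd.root d, rfl⟩
  | succ n ih =>
    obtain ⟨v, hv⟩ := ih
    have hex : ∃ i : Fin d, v.1.head? ≠ some i := by
      have : Nontrivial (Fin d) := Fin.nontrivial_iff_two_le.2 hd
      rcases h : v.1.head? with _ | j
      · exact ⟨⟨0, by omega⟩, by simp⟩
      · obtain ⟨i, hi⟩ := exists_ne j
        exact ⟨i, fun h => hi (Option.some.inj h).symm⟩
    obtain ⟨i, hi⟩ := hex
    refine ⟨act i v, ?_⟩
    rw [act_val, if_neg hi, List.length_cons, hv]

theorem td_infinite {d : ℕ} (hd : 2 ≤ d) : Infinite (Wd d) := by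
  choose w hw using exists_length hd
  exact Infinite.of_injective w (fun m n h => by rw [← hw m, ← hw n, h])

theorem exists_tr_inv {d : ℕ} (v : Wd d) : ∃ w, tr v w = Wd.root d := by
  induction v using Wd.induct with
  | h0 => exact ⟨Wd.root d, rfl⟩
  | h1 i v ih =>
    obtain ⟨w', hw'⟩ := ih
    have h1 : ∀ x, tr (act i (Wd.root d)) (tr (act i (Wd.root d)) x) = x := by
      intro x
      rw [tr_tr, tr_act, tr_root, act_act, root_tr]
    refine ⟨tr (act i (Wd.root d)) w', ?_⟩
    have h2 : act i v = tr v (act i (Wd.root d)) := by rw [tr_act, tr_root]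
    rw [h2, ← tr_tr, h1, hw']

/-- right translations are tree automorphisms -/
theorem exists_trIso {d : ℕ} (v : Wd d) : ∃ φ : Td d ≃g Td d, ∀ x, φ x = tr v x := by
  obtain ⟨w, hw⟩ := exists_tr_inv v
  obtain ⟨u, hu⟩ := exists_tr_inv w
  have hvw : ∀ x, tr v (tr w x) = x := fun x => by rw [tr_tr, hw, root_tr]
  have hwu : ∀ x, tr w (tr u x) = x := fun x => by rw [tr_tr, hu, root_tr]
  have hvu : ∀ x, tr v x = tr u x := fun x => by rw [← hwu x, hvw, hwu]
  have hwv : ∀ x, tr w (tr v x) = x := fun x => by rw [hvu, hwu]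
  refine ⟨{ toFun := tr v
            invFun := tr w
            left_inv := hwv
            right_inv := hvw
            map_rel_iff' := ?_ }, fun x => rfl⟩
  intro x y
  show (Td d).Adj (tr v x) (tr v y) ↔ (Td d).Adj x y
  rw [td_adj, td_adj]
  constructor
  · rintro ⟨i, hi⟩
    rw [← tr_act] at hi
    refine ⟨i, ?_⟩
    rw [← hwv y, hi, hwv]
  · rintro ⟨i, rfl⟩
    exact ⟨i, tr_act v i x⟩

end P8ebff2
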