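import Mathlib
import Pool.Agent.Lib.P8ebff2.Word
import Pool.Agent.Lib.P8ebff2.Tree
import Pool.Agent.Lib.P8ebff2.Rule
import Pool.Agent.Lib.P8ebff2.RuleBasic
import Pool.Agent.Lib.P8ebff2.Exact
import Pool.Agent.Lib.P8ebff2.Density
import Pool.Agent.Lib.P8ebff2.Limit
import Pool.Agent.Lib.P8ebff2.Encode
import Pool.Agent.Lib.P8ebff2.Defs
/-! The inverse system on the `d`-regular tree. -/
open MeasureTheory ProbabilityTheory Filter Topology
open scoped ENNReal unitInterval
namespace P8ebff2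

/-- the labelled configurations of level `n` -/
abbrev YY (d : ℕ) (M : ℕ → ℕ) (n : ℕ) : Type := Wd d → Fin (M n + 1)

/-- the i.i.d. uniform law of level `n` -/
noncomputable def ppi (d : ℕ) (M : ℕ → ℕ) (n : ℕ) : Measure (YY d M n) :=
  Measure.infinitePi (fun _ : Wd d => unif (Fin (M n + 1)))

instance (d : ℕ) (M : ℕ → ℕ) (n : ℕ) : IsProbabilityMeasure (ppi d M n) := by
  unfold ppi; infer_instance

/-- the bonding map of level `n` -/
noncomputable def FF (d : ℕ) (M k ρ : ℕ → ℕ)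
    (e : ∀ n, Fin (M (n + 1) + 1) ≃ Fin (k n + 1) × Fin (M n + 1) × Fin (M n + 1)) (n : ℕ) :
    YY d M (n + 1) → YY d M n :=
  rule (Td d) (e n) 0 (ρ n)

/-- the base point -/
def ptY (d : ℕ) (M : ℕ → ℕ) (n : ℕ) : YY d M n := fun _ => 0

variable {d : ℕ} {M k ρ : ℕ → ℕ}
  {e : ∀ n, Fin (M (n + 1) + 1) ≃ Fin (k n + 1) × Fin (M n + 1) × Fin (M n + 1)}

theorem FF_continuous (n : ℕ) : Continuous (FF d M k ρ e n) := by
  refine continuous_pi fun v => ?_
  exact continuous_of_dependsOn (rule_dependsOn (td_isTree d) td_finite_nbr (e n) 0 (ρ n) v)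

theorem td_exists_nbr (hd : 1 ≤ d) (v : Wd d) : ∃ z, (Td d).Adj v z :=
  ⟨act ⟨0, hd⟩ v, ⟨0, hd⟩, rfl⟩

theorem FF_map (hd : 1 ≤ d) (n : ℕ) : (ppi d M (n + 1)).map (FF d M k ρ e n) = ppi d M n :=
  rule_map (td_isTree d) (td_exists_nbr hd) td_finite_nbr (e n) 0 (ρ n) (Wd.root d)

theorem FF_equiv (φ : Td d ≃g Td d) (n : ℕ) (y : YY d M (n + 1)) :
    FF d M k ρ e n (fun v => y (φ v)) = fun v => FF d M k ρ e n y (φ v) := by
  funext v
  exact rule_equiv φ (e n) 0 (ρ n) y v

/-- three neighbours -/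
theorem td_h3 (hd : 3 ≤ d) (v z : Wd d) :
    ∃ x y : Wd d, (Td d).Adj v x ∧ (Td d).Adj v y ∧ x ≠ y ∧ x ≠ z ∧ y ≠ z := by
  have inj := act_injective v
  have h : ∀ i j : Fin d, i ≠ j → act i v ≠ act j v := fun i j hij h => hij (inj h)
  let i0 : Fin d := ⟨0, by omega⟩
  let i1 : Fin d := ⟨1, by omega⟩
  let i2 : Fin d := ⟨2, by omega⟩
  have h01 : i0 ≠ i1 := by simp [i0, i1]
  have h02 : i0 ≠ i2 := by simp [i0, i2]
  have h12 : i1 ≠ i2 := by simp [i1, i2]
  by_cases h0 : act i0 v = z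
  · refine ⟨act i1 v, act i2 v, ⟨i1, rfl⟩, ⟨i2, rfl⟩, h _ _ h12, ?_, ?_⟩
    · rw [← h0]; exact h _ _ h01.symm
    · rw [← h0]; exact h _ _ h02.symm
  · by_cases h1 : act i1 v = z
    · refine ⟨act i0 v, act i2 v, ⟨i0, rfl⟩, ⟨i2, rfl⟩, h _ _ h02, h0, ?_⟩
      rw [← h1]; exact h _ _ h12.symm
    · exact ⟨act i0 v, act i1 v, ⟨i0, rfl⟩, ⟨i1, rfl⟩, h _ _ h01, h0, h1⟩

/-- invariance of the i.i.d. law under any permutation of the index set -/
theorem infinitePi_perm {V X : Type*} [MeasurableSpace X] (ν : Measure X)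
    [IsProbabilityMeasure ν] (φ : V ≃ V) :
    (Measure.infinitePi (fun _ : V => ν)).map (fun x v => x (φ v)) =
      Measure.infinitePi (fun _ : V => ν) :=
  Measure.map_infinitePi_infinitePi_of_inj (P := fun _ : V => ν) φ.injective

/-! ### Equivariance and locality of the composites -/

theorem liftG_equiv (φ : Td d ≃g Td d) (n : ℕ) (y : YY d M n) (j : ℕ) :
    liftG (ptY d M) (FF d M k ρ e) n (fun v => y (φ v)) j =
      fun v => liftG (ptY d M) (FF d M k ρ e) n y j (φ v) := by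
  induction n with
  | zero =>
    unfold liftG
    by_cases hj : j = 0
    · subst hj
      simp
    · rw [Function.update_of_ne hj, Function.update_of_ne hj]
      rfl
  | succ n ih =>
    unfold liftG
    by_cases hj : j = n + 1
    · subst hj
      simp
    · rw [Function.update_of_ne hj, Function.update_of_ne hj, FF_equiv]
      exact ih _

theorem dependsOn_comp {V α β γ : Type*} [DecidableEq V] {f : (V → β) → γ} {K : Finset V}
    (hf : DependsOn f (K : Set V)) {Θ : (V → α) → V → β} (W : V → Finset V)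
    (hΘ : ∀ v, DependsOn (fun x => Θ x v) (W v : Set V)) :
    DependsOn (fun x => f (Θ x)) ((K.biUnion W : Finset V) : Set V) := by
  intro x y hxy
  refine hf fun v hv => hΘ v fun u hu => hxy u ?_
  simp only [Finset.coe_biUnion, Set.mem_iUnion]
  exact ⟨v, hv, hu⟩

theorem liftG_dependsOn (n : ℕ) (v : Wd d) : ∃ K : Finset (Wd d),
    DependsOn (fun y : YY d M n => liftG (ptY d M) (FF d M k ρ e) n y 0 v) (K : Set (Wd d)) := by
  induction n with
  | zero =>
    refine ⟨{v}, fun x y h => ?_⟩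
    have := h v (by simp)
    simpa [liftG] using this
  | succ n ih =>
    obtain ⟨K, hK⟩ := ih
    refine ⟨K.biUnion (win (td_isTree d) td_finite_nbr (ρ n)), ?_⟩
    have := dependsOn_comp (Θ := FF d M k ρ e n) hK (win (td_isTree d) td_finite_nbr (ρ n))
      (fun u => rule_dependsOn (td_isTree d) td_finite_nbr (e n) 0 (ρ n) u)
    intro x y hxy
    have h2 := this hxy
    simp only at h2 ⊢
    rw [liftG_succ_of_le (Nat.zero_le n), liftG_succ_of_le (Nat.zero_le n)]
    exact h2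

end P8ebff2
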