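import Mathlib
import Pool.Agent.Lib.P8ebff2.System
import Pool.Agent.Lib.P8ebff2.Seq
import Pool.Agent.Lib.P8ebff2.NoCoding
/-! Assembly of the counterexample. -/
open MeasureTheory ProbabilityTheory Filter Topology
open scoped ENNReal unitInterval
namespace P8ebff2

set_option linter.unusedSectionVars false

variable {d : ℕ} {M k ρ : ℕ → ℕ}
  {e : ∀ n, Fin (M (n + 1) + 1) ≃ Fin (k n + 1) × Fin (M n + 1) × Fin (M n + 1)}

/-- vertexwise encoding of the tower of configurations by real labels -/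
noncomputable def Enc (y : ∀ n, YY d M n) (v : Wd d) : ℝ :=
  enc (fun n => ((y n v : Fin (M n + 1)) : ℕ))

theorem Enc_congr {y y' : ∀ n, YY d M n} {v v' : Wd d} (h : ∀ j, y j v = y' j v') :
    Enc y v = Enc y' v' := by
  have : (fun n => ((y n v : Fin (M n + 1)) : ℕ)) = fun n => ((y' n v' : Fin (M n + 1)) : ℕ) := by
    funext j
    rw [h j]
  unfold Enc
  rw [this]

theorem Enc_measurable : Measurable (Enc : (∀ n, YY d M n) → Wd d → ℝ) := by
  refine measurable_pi_lambda _ fun v => ?_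
  refine enc_continuous.measurable.comp (measurable_pi_lambda _ fun n => ?_)
  have h1 : Measurable fun y : ∀ n, YY d M n => y n := measurable_pi_apply n
  have h2 : Measurable fun y : YY d M n => y v := measurable_pi_apply v
  have h3 : Measurable fun a : Fin (M n + 1) => (a : ℕ) := measurable_of_finite _
  exact h3.comp (h2.comp h1)

theorem Enc_memLp {Ω : Type*} [MeasurableSpace Ω] (P : Measure Ω) [IsProbabilityMeasure P]
    {T : Ω → ∀ n, YY d M n} (hT : Measurable T) (v : Wd d) :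
    MemLp (fun x : Wd d → ℝ => x v) 2 (P.map (fun ω => Enc (T ω))) := by
  have hm : Measurable fun ω => Enc (T ω) := Enc_measurable.comp hT
  have : IsProbabilityMeasure (P.map (fun ω => Enc (T ω))) :=
    Measure.isProbabilityMeasure_map hm.aemeasurable
  refine MemLp.of_bound (measurable_pi_apply v).aestronglyMeasurable (3 / 2) ?_
  rw [ae_map_iff hm.aemeasurable]
  · refine ae_of_all _ fun ω => ?_
    have := enc_mem (fun n => ((T ω n v : Fin (M n + 1)) : ℕ))
    rw [Real.norm_eq_abs, abs_le]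
    exact ⟨by have := this.1; unfold Enc; linarith, this.2⟩
  · exact measurableSet_le (measurable_pi_apply v).norm measurable_const

theorem Enc_isProcess {Ω : Type*} [MeasurableSpace Ω] (P : Measure Ω) [IsProbabilityMeasure P]
    {T : Ω → ∀ n, YY d M n} (hT : Measurable T)
    (hinv : ∀ φ : Td d ≃g Td d, ∃ θ : Ω → Ω, MeasurePreserving θ P P ∧
      ∀ ω, T (θ ω) = fun n v => T ω n (φ v)) :
    IsProcess (Td d) (P.map (fun ω => Enc (T ω))) := by
  have hm : Measurable fun ω => Enc (T ω) := Enc_measurable.comp hT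
  refine ⟨Measure.isProbabilityMeasure_map hm.aemeasurable, fun φ => ?_, Enc_memLp P hT⟩
  obtain ⟨θ, hθ, hθ'⟩ := hinv φ
  have h1 : Measurable fun (x : Wd d → ℝ) (v : Wd d) => x (φ v) :=
    measurable_pi_lambda _ fun v => measurable_pi_apply (φ v)
  rw [Measure.map_map h1 hm]
  have h2 : (fun (x : Wd d → ℝ) (v : Wd d) => x (φ v)) ∘ (fun ω => Enc (T ω)) =
      (fun ω => Enc (T ω)) ∘ θ := by
    funext ω v
    simp only [Function.comp_apply, hθ', Enc]
  rw [h2, ← Measure.map_map hm hθ.measurable, hθ.map_eq]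

/-- the law of the `n`-th approximation -/
noncomputable def Xlaw (d : ℕ) (M k ρ : ℕ → ℕ)
    (e : ∀ n, Fin (M (n + 1) + 1) ≃ Fin (k n + 1) × Fin (M n + 1) × Fin (M n + 1)) (n : ℕ) :
    Measure (Wd d → ℝ) :=
  (ppi d M n).map (fun u => Enc (liftG (ptY d M) (FF d M k ρ e) n u))

theorem liftG_measurable (n : ℕ) : Measurable (liftG (ptY d M) (FF d M k ρ e) n) :=
  (continuous_liftG (fun n => FF_continuous n) n).measurable

theorem perm_measurable {V X : Type*} [MeasurableSpace X] (φ : V → V) :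
    Measurable fun (x : V → X) (v : V) => x (φ v) :=
  measurable_pi_lambda _ fun v => measurable_pi_apply (φ v)

theorem ppi_perm (φ : Td d ≃g Td d) (n : ℕ) :
    MeasurePreserving (fun (x : YY d M n) (v : Wd d) => x (φ v)) (ppi d M n) (ppi d M n) :=
  ⟨perm_measurable _, infinitePi_perm _ φ.toEquiv⟩

theorem Xlaw_isProcess (n : ℕ) : IsProcess (Td d) (Xlaw d M k ρ e n) := by
  refine Enc_isProcess (ppi d M n) (liftG_measurable n) fun φ => ⟨_, ppi_perm φ n, fun ω => ?_⟩
  funext j
  exact liftG_equiv φ n ω j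

theorem Xlaw_isFIID (n : ℕ) : IsFIID (Td d) (Xlaw d M k ρ e n) := by
  obtain ⟨q, hq, hq'⟩ := Measure.exists_measurable_map_eq (unif (Fin (M n + 1)))
  have hqm : Measurable fun (ω : Wd d → I) (v : Wd d) => q (ω v) :=
    measurable_pi_lambda _ fun v => hq.comp (measurable_pi_apply v)
  refine ⟨fun ω => Enc (liftG (ptY d M) (FF d M k ρ e) n (fun v => q (ω v))),
    Enc_measurable.comp ((liftG_measurable n).comp hqm), ?_, ?_⟩
  · intro φ ω
    have := liftG_equiv (k := k) (ρ := ρ) (e := e) φ n (fun v => q (ω v))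
    funext v
    exact Enc_congr fun j => congrFun (this j) v
  · unfold Xlaw iidLaw
    have h1 : (Measure.infinitePi (fun _ : Wd d => (volume : Measure I))).map
        (fun (ω : Wd d → I) (v : Wd d) => q (ω v)) = ppi d M n := by
      have := Measure.infinitePi_map_pi (μ := fun _ : Wd d => (volume : Measure I))
        (Y := fun _ : Wd d => Fin (M n + 1)) (f := fun _ => q) (fun _ => hq)
      rw [this, hq']
      rfl
    have h2 : Measurable fun u => Enc (liftG (ptY d M) (FF d M k ρ e) n u) :=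
      Enc_measurable.comp (liftG_measurable n)
    rw [← h1, Measure.map_map h2 hqm]
    rfl

section limit

variable (μ : Measure (∀ n, YY d M n)) [IsProbabilityMeasure μ]

theorem law_isProcess (hT : ∀ T : ∀ n, YY d M n → YY d M n, (∀ n, Continuous (T n)) →
      (∀ n, (ppi d M n).map (T n) = ppi d M n) →
      (∀ n y, FF d M k ρ e n (T (n + 1) y) = T n (FF d M k ρ e n y)) →
      μ.map (fun y n => T n (y n)) = μ) :
    IsProcess (Td d) (μ.map Enc) := by
  refine Enc_isProcess μ measurable_id fun φ => ⟨fun y n v => y n (φ v), ⟨?_, ?_⟩, fun ω => rfl⟩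
  · exact measurable_pi_lambda _ fun n => (perm_measurable φ).comp (measurable_pi_apply n)
  · exact hT (fun n y v => y (φ v))
      (fun n => continuous_pi fun v => continuous_apply (φ v)) (fun n => (ppi_perm φ n).map_eq)
      (fun n y => FF_equiv φ n y)

theorem coupling_isCoupling (hmarg : ∀ n, μ.map (fun y => y n) = ppi d M n)
    (hT : ∀ T : ∀ n, YY d M n → YY d M n, (∀ n, Continuous (T n)) →
      (∀ n, (ppi d M n).map (T n) = ppi d M n) →
      (∀ n y, FF d M k ρ e n (T (n + 1) y) = T n (FF d M k ρ e n y)) →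
      μ.map (fun y n => T n (y n)) = μ) (n : ℕ) :
    IsCoupling (Td d) (Xlaw d M k ρ e n) (μ.map Enc)
      (μ.map (fun y => (Enc (liftG (ptY d M) (FF d M k ρ e) n (y n)), Enc y))) := by
  have hev : Measurable fun y : ∀ n, YY d M n => y n := measurable_pi_apply n
  have h1 : Measurable fun y : ∀ n, YY d M n =>
      Enc (liftG (ptY d M) (FF d M k ρ e) n (y n)) :=
    Enc_measurable.comp ((liftG_measurable n).comp hev)
  have h2 : Measurable fun y : ∀ n, YY d M n =>
      (Enc (liftG (ptY d M) (FF d M k ρ e) n (y n)), Enc y) := h1.prodMk Enc_measurable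
  refine ⟨?_, ?_, fun φ => ?_⟩
  · have h6 : Measurable fun u => Enc (liftG (ptY d M) (FF d M k ρ e) n u) :=
      Enc_measurable.comp (liftG_measurable n)
    rw [Measure.map_map measurable_fst h2, Xlaw, ← hmarg n, Measure.map_map h6 hev]
    rfl
  · rw [Measure.map_map measurable_snd h2]
    rfl
  · have h3 : Measurable fun p : (Wd d → ℝ) × (Wd d → ℝ) =>
        ((fun v => p.1 (φ v)), (fun v => p.2 (φ v))) :=
      ((perm_measurable φ).comp measurable_fst).prodMk ((perm_measurable φ).comp measurable_snd)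
    have h4 : Measurable fun (y : ∀ n, YY d M n) (n : ℕ) (v : Wd d) => y n (φ v) :=
      measurable_pi_lambda _ fun n => (perm_measurable φ).comp (measurable_pi_apply n)
    have h5 := hT (fun n y v => y (φ v))
      (fun n => continuous_pi fun v => continuous_apply (φ v)) (fun n => (ppi_perm φ n).map_eq)
      (fun n y => FF_equiv φ n y)
    rw [Measure.map_map h3 h2]
    conv_rhs => rw [← h5]
    rw [Measure.map_map h2 h4]
    congr 1
    funext y
    simp only [Function.comp_apply]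
    refine Prod.ext ?_ ?_
    · funext v
      exact Enc_congr fun j => (congrFun (liftG_equiv φ n (y n) j) v).symm
    · funext v
      rfl

theorem cost_tendsto (hF : ∀ n, ∀ᵐ y ∂μ, FF d M k ρ e n (y (n + 1)) = y n) (o : Wd d) :
    Tendsto (fun n => ∫⁻ p, ENNReal.ofReal ((p.1 o - p.2 o) ^ 2)
      ∂(μ.map (fun y => (Enc (liftG (ptY d M) (FF d M k ρ e) n (y n)), Enc y)))) atTop (𝓝 0) := by
  have hm : ∀ n, Measurable fun y : ∀ n, YY d M n =>
      (Enc (liftG (ptY d M) (FF d M k ρ e) n (y n)), Enc y) := fun n =>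
    (Enc_measurable.comp ((liftG_measurable n).comp (measurable_pi_apply n))).prodMk Enc_measurable
  have hc : Measurable fun p : (Wd d → ℝ) × (Wd d → ℝ) =>
      ENNReal.ofReal ((p.1 o - p.2 o) ^ 2) := by
    have h1 : Measurable fun p : (Wd d → ℝ) × (Wd d → ℝ) => p.1 o :=
      (measurable_pi_apply o).comp measurable_fst
    have h2 : Measurable fun p : (Wd d → ℝ) × (Wd d → ℝ) => p.2 o :=
      (measurable_pi_apply o).comp measurable_snd
    exact ((h1.sub h2).pow_const 2).ennreal_ofReal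
  have hmap : (fun n => ∫⁻ p, ENNReal.ofReal ((p.1 o - p.2 o) ^ 2)
      ∂(μ.map (fun y => (Enc (liftG (ptY d M) (FF d M k ρ e) n (y n)), Enc y)))) =
      fun n => ∫⁻ y, ENNReal.ofReal
        ((Enc (liftG (ptY d M) (FF d M k ρ e) n (y n)) o - Enc y o) ^ 2) ∂μ :=
    funext fun n => lintegral_map hc (hm n)
  rw [hmap]
  have hbound : ∀ n (y : ∀ n, YY d M n), ENNReal.ofReal
      ((Enc (liftG (ptY d M) (FF d M k ρ e) n (y n)) o - Enc y o) ^ 2) ≤
        ENNReal.ofReal ((3 / 2) ^ 2) := by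
    intro n y
    refine ENNReal.ofReal_le_ofReal ?_
    have h1 := enc_mem (fun j =>
      ((liftG (ptY d M) (FF d M k ρ e) n (y n) j o : Fin (M j + 1)) : ℕ))
    have h2 := enc_mem (fun j => ((y j o : Fin (M j + 1)) : ℕ))
    rw [Set.mem_Icc] at h1 h2
    unfold Enc
    rw [sq_le_sq, abs_le]
    constructor
    · rw [abs_of_pos (by norm_num : (0 : ℝ) < 3 / 2)]; linarith [h1.1, h1.2, h2.1, h2.2]
    · rw [abs_of_pos (by norm_num : (0 : ℝ) < 3 / 2)]; linarith [h1.1, h1.2, h2.1, h2.2]
  have hlim : ∀ᵐ y ∂μ, Tendsto (fun n => ENNReal.ofReal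
      ((Enc (liftG (ptY d M) (FF d M k ρ e) n (y n)) o - Enc y o) ^ 2)) atTop (𝓝 0) := by
    have hall : ∀ᵐ y ∂μ, ∀ n, FF d M k ρ e n (y (n + 1)) = y n := ae_all_iff.2 hF
    filter_upwards [hall] with y hy
    have h1 : Tendsto (fun n => Enc (liftG (ptY d M) (FF d M k ρ e) n (y n)) o) atTop
        (𝓝 (Enc y o)) := by
      unfold Enc
      refine (enc_continuous.tendsto _).comp ?_
      rw [tendsto_pi_nhds]
      intro j
      refine tendsto_const_nhds.congr' ?_
      filter_upwards [eventually_ge_atTop j] with n hn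
      rw [eq_liftG_of_chain hn (fun m _ => hy m)]
    have h2 : Tendsto (fun n => (Enc (liftG (ptY d M) (FF d M k ρ e) n (y n)) o - Enc y o) ^ 2)
        atTop (𝓝 ((Enc y o - Enc y o) ^ 2)) := (h1.sub_const _).pow 2
    rw [sub_self, zero_pow two_ne_zero] at h2
    have h3 := (ENNReal.continuous_ofReal.tendsto 0).comp h2
    rwa [ENNReal.ofReal_zero] at h3
  have := tendsto_lintegral_of_dominated_convergence (μ := μ)
    (F := fun n y => ENNReal.ofReal
      ((Enc (liftG (ptY d M) (FF d M k ρ e) n (y n)) o - Enc y o) ^ 2))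
    (f := fun _ => 0) (fun _ => ENNReal.ofReal ((3 / 2) ^ 2)) (fun n => hc.comp (hm n))
    (fun n => ae_of_all _ (hbound n)) (by simp) hlim
  simpa using this

end limit

/-! ### The limit is not a factor of i.i.d. -/

/-- the decoder -/
noncomputable def Dec (dec : ℝ → ℕ → ℕ) (x : Wd d → ℝ) : ∀ n, YY d M n :=
  fun n v => Fin.ofNat (M n + 1) (dec (x v) n)

theorem Dec_measurable {dec : ℝ → ℕ → ℕ} (hdec : Measurable dec) :
    Measurable (Dec dec : (Wd d → ℝ) → ∀ n, YY d M n) := by
  refine measurable_pi_lambda _ fun n => measurable_pi_lambda _ fun v => ?_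
  have h1 : Measurable fun x : Wd d → ℝ => x v := measurable_pi_apply v
  have h2 : Measurable fun x : ℕ → ℕ => x n := measurable_pi_apply n
  have h3 : Measurable (Fin.ofNat (M n + 1)) := measurable_from_nat
  exact h3.comp (h2.comp (hdec.comp h1))

theorem Dec_Enc {dec : ℝ → ℕ → ℕ} (hdec : ∀ x, dec (enc x) = x) (y : ∀ n, YY d M n) :
    Dec dec (Enc y) = y := by
  funext n v
  unfold Dec Enc
  rw [hdec]
  exact Fin.ext (by simp [Fin.ofNat, Nat.mod_eq_of_lt (y n v).2])

theorem not_isFIIDae (hd : 3 ≤ d) (hM : M 0 = 1)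
    (hest : ∀ n : ℕ, (1 / ((k n + 1 : ℕ) : ℝ) +
      d * (1 - 1 / ((k n + 1 : ℕ) : ℝ)) ^ (2 ^ (ρ n))) *
      (1 + Real.log (((M n + 2) * (M n + 2) : ℕ) : ℝ)) ≤ 1 / (n + 1))
    (μ : Measure (∀ n, YY d M n)) (hmarg : ∀ n, μ.map (fun y => y n) = ppi d M n)
    (hF : ∀ n, ∀ᵐ y ∂μ, FF d M k ρ e n (y (n + 1)) = y n) :
    ¬ IsFIIDae (Td d) (μ.map Enc) := by
  rintro ⟨Φ, hΦ, hΦe, hlaw⟩
  obtain ⟨dec, hdec, hdec'⟩ := exists_dec
  set P : Measure (Wd d → I) := Measure.infinitePi (fun _ : Wd d => (volume : Measure I)) with hP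
  let Ũ : (Wd d → I) → ∀ n, YY d M n := fun ω => Dec dec (Φ ω)
  have hŨ : Measurable Ũ := (Dec_measurable hdec).comp hΦ
  have hŨlaw : P.map Ũ = μ := by
    have h1 : (P.map Φ).map (Dec dec : (Wd d → ℝ) → ∀ n, YY d M n) = μ := by
      have : P.map Φ = μ.map Enc := hlaw.symm
      rw [this, Measure.map_map (Dec_measurable hdec) Enc_measurable]
      have h2 : (Dec dec : (Wd d → ℝ) → ∀ n, YY d M n) ∘ Enc = id := by
        funext y
        exact Dec_Enc hdec' y
      rw [h2, Measure.map_id]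
    rw [← h1, Measure.map_map (Dec_measurable hdec) hΦ]
    rfl
  have hmargŨ : ∀ n, P.map (fun ω => Ũ ω n) = ppi d M n := by
    intro n
    have hev : Measurable fun y : ∀ n, YY d M n => y n := measurable_pi_apply n
    rw [← hmarg n, ← hŨlaw, Measure.map_map hev hŨ]
    rfl
  have hFŨ : ∀ᵐ ω ∂P, ∀ n, FF d M k ρ e n (Ũ ω (n + 1)) = Ũ ω n := by
    have h1 : ∀ᵐ y ∂(P.map Ũ), ∀ n, FF d M k ρ e n (y (n + 1)) = y n := by
      rw [hŨlaw]; exact ae_all_iff.2 hF
    exact ae_of_ae_map hŨ.aemeasurable h1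
  have hcoord : ∀ n, Measurable fun ω => Ũ ω n := fun n => (measurable_pi_apply n).comp hŨ
  have heq : ∀ v : Wd d, ∀ᵐ ω ∂P, ∀ n x, Ũ (fun x => ω (tr v x)) n x = Ũ ω n (tr v x) := by
    intro v
    obtain ⟨φ, hφ⟩ := exists_trIso v
    filter_upwards [hΦe φ] with ω hω n x
    have h1 : (fun x => ω (tr v x)) = fun x => ω (φ x) := by
      funext x; rw [hφ]
    simp only [Ũ, h1, hω, Dec, hφ]
  refine no_small_coding (f0 := fun ω => Ũ ω 0 (Wd.root d)) ?_ ?_ ?_
  · exact (measurable_pi_apply (Wd.root d)).comp (hcoord 0)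
  · intro b
    have h1 : {ω | Ũ ω 0 (Wd.root d) = b} =
        (fun ω => Ũ ω 0) ⁻¹' ((fun y : YY d M 0 => y (Wd.root d)) ⁻¹' {b}) := rfl
    have hev : Measurable fun y : YY d M 0 => y (Wd.root d) := measurable_pi_apply _
    have h2 : P {ω | Ũ ω 0 (Wd.root d) = b} = (2 : ℝ≥0∞)⁻¹ := by
      rw [h1, ← Measure.map_apply (hcoord 0) (hev (measurableSet_singleton b)), hmargŨ 0,
        ← Measure.map_apply hev (measurableSet_singleton b)]
      have h3 : (ppi d M 0).map (fun y : YY d M 0 => y (Wd.root d)) = unif (Fin (M 0 + 1)) :=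
        Measure.infinitePi_map_eval (μ := fun _ : Wd d => unif (Fin (M 0 + 1))) (Wd.root d)
      rw [h3, unif_singleton, Fintype.card_fin, hM]
      norm_num
    unfold Measure.real
    rw [← hP, h2]
    norm_num
  · intro ε hε
    obtain ⟨n, hn⟩ := exists_nat_one_div_lt hε
    obtain ⟨K, hK⟩ := liftG_dependsOn (d := d) (M := M) (k := k) (ρ := ρ) (e := e) n (Wd.root d)
    refine ⟨Option (Fin (M n + 1)) × Option (Fin (M n + 1)), inferInstance, ⊤,
      @MeasurableSingletonClass.mk _ ⊤ (fun _ => trivial),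
      (none, none), fun ω => red (Td d) (e n) 0 (ρ n) (Ũ ω (n + 1)) (Wd.root d),
      K.biUnion (win (td_isTree d) td_finite_nbr (ρ n)),
      fun r => liftG (ptY d M) (FF d M k ρ e) n (recon (Td d) (ρ n) r) 0 (Wd.root d), ?_, ?_, ?_, ?_⟩
    · have h1 : @Measurable _ _ _ ⊤
          (fun U : YY d M (n + 1) => red (Td d) (e n) 0 (ρ n) U (Wd.root d)) :=
        @measurable_of_dependsOn _ _ _ _ _ _ ⊤ _ _
          (red_dependsOn (td_isTree d) td_finite_nbr (e n) 0 (ρ n) (Wd.root d))
      exact h1.comp (hcoord (n + 1))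
    · exact dependsOn_comp (Θ := recon (Td d) (ρ n)) hK _
        (fun u => recon_dependsOn (td_isTree d) td_finite_nbr (ρ n) u)
    · have hall : ∀ᵐ ω ∂P, ∀ v : Wd d, ∀ n x,
          Ũ (fun x => ω (tr v x)) n x = Ũ ω n (tr v x) := ae_all_iff.2 heq
      filter_upwards [hall, hFŨ] with ω h1 h2
      have h3 : (fun v => red (Td d) (e n) 0 (ρ n) (Ũ (fun x => ω (tr v x)) (n + 1))
          (Wd.root d)) = red (Td d) (e n) 0 (ρ n) (Ũ ω (n + 1)) := by
        funext v
        obtain ⟨φ, hφ⟩ := exists_trIso v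
        have h4 : Ũ (fun x => ω (tr v x)) (n + 1) = fun x => Ũ ω (n + 1) (φ x) := by
          funext x
          rw [h1 v (n + 1) x, hφ]
        rw [h4, red_equiv, hφ, tr_root]
      rw [h3]
      have h5 : recon (Td d) (ρ n) (red (Td d) (e n) 0 (ρ n) (Ũ ω (n + 1))) = Ũ ω n := h2 n
      rw [h5, eq_liftG_of_chain (Nat.zero_le n) (fun m _ => h2 m)]
    · have hcard : (Fintype.card (Option (Fin (M n + 1)) × Option (Fin (M n + 1))) : ℝ) =
          (((M n + 2) * (M n + 2) : ℕ) : ℝ) := by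
        simp only [Fintype.card_prod, Fintype.card_option, Fintype.card_fin]
      have hdens := red_density (td_isTree d) (td_h3 hd) td_finite_nbr (e n) 0 (ρ n) (Wd.root d)
      have hset : MeasurableSet {U : YY d M (n + 1) |
          red (Td d) (e n) 0 (ρ n) U (Wd.root d) ≠ (none, none)} := by
        have h1 : @Measurable _ _ _ ⊤
            (fun U : YY d M (n + 1) => red (Td d) (e n) 0 (ρ n) U (Wd.root d)) :=
          @measurable_of_dependsOn _ _ _ _ _ _ ⊤ _ _
            (red_dependsOn (td_isTree d) td_finite_nbr (e n) 0 (ρ n) (Wd.root d))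
        exact h1 (t := {(none, none)}ᶜ) trivial
      have h6 : P.real {ω | red (Td d) (e n) 0 (ρ n) (Ũ ω (n + 1)) (Wd.root d) ≠ (none, none)} =
          (ppi d M (n + 1)).real {U | red (Td d) (e n) 0 (ρ n) U (Wd.root d) ≠ (none, none)} := by
        rw [← hmargŨ (n + 1)]
        unfold Measure.real
        rw [Measure.map_apply (hcoord (n + 1)) hset]
        rfl
      rw [hcard]
      refine le_trans ?_ hn.le
      refine le_trans ?_ (hest n)
      refine mul_le_mul_of_nonneg_right ?_ ?_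
      · rw [← hP, h6]
        refine hdens.trans (le_of_eq ?_)
        rw [Fintype.card_fin, td_ncard]
      · have : (1 : ℝ) ≤ (((M n + 2) * (M n + 2) : ℕ) : ℝ) := by
          have : 1 ≤ (M n + 2) * (M n + 2) := by nlinarith
          exact_mod_cast this
        have := Real.log_nonneg this
        linarith

/-- the counterexample on the `d`-regular tree -/
theorem exists_counterexample (d : ℕ) (hd : 3 ≤ d) :
    ∃ (X : ℕ → Measure (Wd d → ℝ)) (Y : Measure (Wd d → ℝ)),
      (∀ n, IsProcess (Td d) (X n) ∧ IsFIID (Td d) (X n)) ∧ IsProcess (Td d) Y ∧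
      (∀ o, Tendsto (fun n => dbarSq (Td d) o (X n) Y) atTop (𝓝 0)) ∧
      ¬ IsFIIDae (Td d) Y := by
  obtain ⟨M, k, ρ, hM, hrec, hest⟩ := exists_sequences d
  have he : ∀ n, Nonempty (Fin (M (n + 1) + 1) ≃ Fin (k n + 1) × Fin (M n + 1) × Fin (M n + 1)) := by
    intro n
    refine ⟨Fintype.equivOfCardEq ?_⟩
    simp only [Fintype.card_fin, Fintype.card_prod]
    exact hrec n
  obtain ⟨e, -⟩ : ∃ _e : ∀ n, Fin (M (n + 1) + 1) ≃ Fin (k n + 1) × Fin (M n + 1) × Fin (M n + 1),
      True := ⟨fun n => (he n).some, trivial⟩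
  obtain ⟨μ, hμ, hmarg, hF, hT⟩ := exists_inverse_limit (Y := YY d M) (ppi d M) (FF d M k ρ e)
    (fun n => FF_continuous n) (fun n => FF_map (by omega) n)
  refine ⟨Xlaw d M k ρ e, μ.map Enc, fun n => ⟨Xlaw_isProcess n, Xlaw_isFIID n⟩,
    law_isProcess μ hT, fun o => ?_, not_isFIIDae hd hM hest μ hmarg hF⟩
  refine tendsto_of_tendsto_of_tendsto_of_le_of_le tendsto_const_nhds (cost_tendsto μ hF o)
    (fun n => zero_le) (fun n => ?_)
  exact iInf₂_le _ (coupling_isCoupling μ hmarg hT n)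

end P8ebff2
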